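import Pool.Agent.U220.RA.Asym2

/-!
# The loss of volume when the axis is filled, for the lists of trees
-/

set_option autoImplicit false

namespace Pool.Agent.U220.RA

open Finset Filter Topology
open Pool.Agent.TH563.UV (Tb PB AB)
open Pool.Agent.W719.AR (Fl)
open Pool.Agent.Y481.DR (VD DAng dVol tj rv)
open Pool.Agent.Y482.DX (PC PAx)
open scoped Real

lemma pc_many {ts : List (Tb × Tb)} (hts : 1 ≤ ts.length) (r : ℕ) (m : ℤ) :
    (PC (2 * (many r ts).length) m fun j => tj (many r ts) (rv (2 * (many r ts).length) j)) =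
      PC (r * (2 * ts.length)) m
        fun j => tj ts (rv (2 * ts.length) (j % (2 * ts.length))) := by
  have e : 2 * (many r ts).length = r * (2 * ts.length) := by
    rw [many_len]
    ring
  rw [e]
  funext y f g F G
  refine propext ?_
  unfold PC
  refine and_congr ?_ Iff.rfl
  refine forall₂_congr fun j hj => ?_
  have h2 : rv (r * (2 * ts.length)) j < r * (2 * ts.length) :=
    Pool.Agent.Y481.DR.rv_lt (by omega) j
  change (y j).shape = tj (many r ts) (rv (r * (2 * ts.length)) j) ↔
    (y j).shape = tj ts (rv (2 * ts.length) (j % (2 * ts.length)))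
  rw [tj_many ts r h2, rv_rep (by omega) hj]

/-- the two-sided estimate for the loss of volume -/
theorem asymp_many {ts : List (Tb × Tb)} {V : ℝ} (hts : 1 ≤ ts.length)
    (h : Wit (2 * ts.length) (fun j => tj ts (rv (2 * ts.length) j)) V) :
    ∃ c C : ℝ, 0 < c ∧ 0 < C ∧ ∀ (r : ℕ) (m : ℤ) (V' : ℝ), 1 ≤ r →
      IsGreatest {W : ℝ | ∃ (y : ℕ → AB) (f g F G : ℕ → Fl),
        PC (2 * (many r ts).length) m
          (fun j => tj (many r ts) (rv (2 * (many r ts).length) j)) y f g F G ∧
        dVol (2 * (many r ts).length) y f g F G = W} V' →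
      c * ((r : ℝ) / ((r : ℝ) ^ 2 + (m : ℝ) ^ 2)) ≤ r * V - V' ∧
        r * V - V' ≤ C * ((r : ℝ) / ((r : ℝ) ^ 2 + (m : ℝ) ^ 2)) := by
  obtain ⟨c, C, hc, hC, H⟩ := h.asymp (by omega)
  refine ⟨c, C, hc, hC, fun r m V' hr hV' => H r m V' hr ?_⟩
  rw [pc_many hts] at hV'
  have e : 2 * (many r ts).length = r * (2 * ts.length) := by
    rw [many_len]
    ring
  rw [e] at hV'
  exact hV'

end Pool.Agent.U220.RA
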