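import Pool.Agent.U220.RA.Wit

/-!
# Rings of trees with their axes: coverings and fillings, for all rings with small vertices
-/

set_option autoImplicit false

namespace Pool.Agent.U220.RA

open Finset Filter Topology Metric
open Pool.Agent.W711.HT hiding XX
open Pool.Agent.Y472
open Pool.Agent.Y421.CG
open Pool.Agent.Y481 (itI cw wts)
open Pool.Agent.Y481.DR
open Pool.Agent.Y481.DX (DGX wsl nbl pzD JA EA S_EXDX S_AXPD S_SCA S_EXPR RCrit3F RCrit0F S_TRUX
  S_MXZF S_MXF S_MXNF S_MXAF XLZXFc XLXFc XFAXFc S_FARF S_NRF S_GEOD3 S_GEODA)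
open Pool.Agent.Y482.DX
open Pool.Agent.TH563.UV (Tb op XX PB AB)
open Pool.Agent.W719.AR (Fl)
open Pool.Agent.W719.AX (EXY)
open Pool.Agent.N561
open Pool.Agent.N561.G
open Pool.Agent.N566.PS
open Pool.Agent.N566.RX
open scoped Real

section
variable {Ty : ℕ → ℤ → Prop} {kf : Bool → ℕ → ℤ → ℕ} {cen : ℕ → ℂ} {S : ℕ → ℂ → ℂ → ℂ}
  {s : ℂ → ℂ → ℂ} {ρ τ g : ℝ} {e : ℕ → ℕ → ℂ → ℂ → ℂ} {K : ℝ}

/-- the ring with its axis -/
theorem witAx (hT : TRcV Ty kf cen S s ρ τ g e K) (hMX : S_MXAF) (hXL : XLXFc) (hFA : S_FARF)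
    (hNR : S_NRF) (D : ℕ) (k : ℕ) (hk : 1 ≤ k) :
    ∃ M : ℝ, ∀ ts : List (Tb × Tb), ts.length = k → OkRV Ty K D M ts →
      ∃ V : ℝ, Wit (2 * ts.length) (fun j => tj ts (rv (2 * ts.length) j)) V := by
  obtain ⟨R₀, B₀, hR₀, hB₀, F, A, hP⟩ := prepV hT D
  obtain ⟨ρ₀, c', C, s3, dl3, hS, H⟩ := hMX hXL hFA hNR
  obtain ⟨M, hM⟩ := H R₀ B₀ hR₀ hB₀ k hk
  refine ⟨M, fun ts hl hts => ?_⟩
  subst hl
  obtain ⟨p1, p2, p3⟩ := hP M ts hts
  obtain ⟨z, y, hc, hz, hy, hE⟩ := hM (nvlX F ts)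
    (fun j ψ => F (tj ts j) ψ - F (tj ts j) 0) (fun j => A (tj ts j)) 0 (nvlX_len F ts) p1 p2
  obtain ⟨p, hp⟩ := p3 z hz
  have hn : 0 < 2 * ts.length := by omega
  have hr : ∀ j < 2 * ts.length, rv (2 * ts.length) j < 2 * ts.length := fun j _ => rv_lt hn j
  have h1 : RCrit0F s3 ρ₀ (2 * ts.length) (fun j => (p j).wt) (fun j => gg kf S s 0 (p j))
      (fun j => (p j).rz) := rc0_congr hn hp.wt hp.gs (fun j hj => (hp.rz j hj).symm) hc
  obtain ⟨hq, hv, hd⟩ := axis_factsV (p := fun j => p (rv (2 * ts.length) j)) hT.ki hS (by omega)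
    (fun j hj => ⟨hp.crt _ (hr j hj), hp.mem _ (hr j hj)⟩) (rc0_rev hS hn h1) rfl
  exact ⟨_, kf, e, _, _, fun j hj => hp.sh _ (hr j hj), hq, hv, rfl⟩

end

/-- everything together, for all kinds of small vertices -/
theorem allW {Ty : ℕ → ℤ → Prop} (hTy : S_TRUXV Ty) : ∃ K : ℝ, 0 < K ∧
    (∀ D : ℕ, ∃ M : ℝ, ∀ (ts : List (Tb × Tb)) (m : ℕ), ts ≠ [] → ¬ (ts.length = 1 ∧ m = 0) →
      OkRV Ty K D M ts → CxF ts m) ∧
    ∀ D k : ℕ, 1 ≤ k → ∃ M : ℝ, ∀ ts : List (Tb × Tb), ts.length = k → OkRV Ty K D M ts →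
      (∀ m : ℤ, CxFX ts m) ∧
      ∃ V : ℝ, Wit (2 * ts.length) (fun j => tj ts (rv (2 * ts.length) j)) V := by
  obtain ⟨kf, cen, S, s, ρ, τ, g, e, K, hT⟩ := trcv_ex hTy
  obtain ⟨ρ₀, c', C, s3, dl3, hS⟩ := Pool.Agent.Y641.CB.sd3
  have hXF : XFAXFc ρ₀ s3 := Pool.Agent.Y833.DX.xfaqf Pool.Agent.Y470.DX.potaf
    Pool.Agent.Y809.DX.gpaf Pool.Agent.Y470.DX.frdf ρ₀ c' C s3 dl3 hS
    (Pool.Agent.Y472.J.kxd ρ₀ c' C s3 dl3 hS)
  refine ⟨K, hT.pos, fun D => ?_, fun D k hk => ?_⟩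
  · obtain ⟨M, hM⟩ := cxAbsV (D := D)
      (fun k m hk hkm => cxZV hT Pool.Agent.Y785.DX.mxzf xlzxfc
        Pool.Agent.Y710.CG.s0p Pool.Agent.Y274.DX.exdx Pool.Agent.Y407.DR.t_scl D k m hk hkm)
      (fun k hk => cxMV hT t_MXF xlxfc t_FARF t_NRF
        Pool.Agent.Y274.DX.exdx Pool.Agent.Y407.DR.t_scl D k hk)
      (cxNV hT Pool.Agent.Y785.DX.mxnf hS hXF
        Pool.Agent.Y274.DX.exdx Pool.Agent.Y407.DR.t_scl D)
    exact ⟨M, fun ts m hts hkm h => cxf_of Pool.Agent.Y274.DX.mirdx hts h.nc (hM ts m hts hkm h)⟩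
  · obtain ⟨M1, h1⟩ := cxAxV hT t_MXAF xlxfc t_FARF t_NRF
      Pool.Agent.Y100.DX.t_axpd Pool.Agent.Y100.DX.t_sca D k hk
    obtain ⟨M2, h2⟩ := witAx hT t_MXAF xlxfc t_FARF t_NRF D k hk
    refine ⟨max M1 M2, fun ts hl h => ⟨fun m => ?_, h2 ts hl (h.mono (le_max_right _ _))⟩⟩
    have h0 : ts ≠ [] := by
      rintro rfl
      simp at hl
      omega
    exact cxfx_of h0 (h1 ts m hl (h.mono (le_max_left _ _)))

/-! ### Repeated rings -/

/-- the ring repeated `r` times -/
def many (r : ℕ) (ts : List (Tb × Tb)) : List (Tb × Tb) := (List.replicate r ts).flatten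

lemma many_len (r : ℕ) (ts : List (Tb × Tb)) : (many r ts).length = r * ts.length := by
  simp [many]

lemma mem_many {r : ℕ} {ts : List (Tb × Tb)} {p : Tb × Tb} (h : p ∈ many r ts) : p ∈ ts := by
  simp only [many, List.mem_flatten, List.mem_replicate] at h
  obtain ⟨l, ⟨-, rfl⟩, h⟩ := h
  exact h

lemma OkRV_many {Ty : ℕ → ℤ → Prop} {K : ℝ} {D : ℕ} {M : ℝ} {ts : List (Tb × Tb)} (r : ℕ)
    (h : OkRV Ty K D M ts) : OkRV Ty K D M (many r ts) :=
  ⟨fun p hp => h.nc p (mem_many hp), fun p hp => h.bd p (mem_many hp)⟩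

lemma getD_replicate {α : Type} (l : List α) (d : α) (r : ℕ) :
    ∀ i < r * l.length, ((List.replicate r l).flatten).getD i d = l.getD (i % l.length) d := by
  induction r with
  | zero => intro i hi; simp at hi
  | succ r ih =>
    intro i hi
    rw [List.replicate_succ, List.flatten_cons]
    by_cases h : i < l.length
    · rw [List.getD_append _ _ _ _ h, Nat.mod_eq_of_lt h]
    · rw [not_lt] at h
      rw [List.getD_append_right _ _ _ _ h, ih (i - l.length) (by
        rw [Nat.succ_mul] at hi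
        omega), Nat.mod_eq_sub_mod h]

lemma tj_many (ts : List (Tb × Tb)) (r : ℕ) {i : ℕ} (hi : i < r * (2 * ts.length)) :
    tj (many r ts) i = tj ts (i % (2 * ts.length)) := by
  have e : ((many r ts).map fun p => [p.1, p.2]).flatten =
      (List.replicate r ((ts.map fun p => [p.1, p.2]).flatten)).flatten := by
    unfold many
    induction r with
    | zero => rfl
    | succ r ih =>
      by_cases h0 : ts.length = 0
      · rw [List.length_eq_zero_iff] at h0
        subst h0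
        simp
      · rw [List.replicate_succ, List.flatten_cons, List.map_append, List.flatten_append,
          List.replicate_succ, List.flatten_cons]
        congr 1
        by_cases h1 : i < r * (2 * ts.length)
        · exact ih h1
        · clear ih hi h1
          induction r with
          | zero => rfl
          | succ r ih =>
            rw [List.replicate_succ, List.flatten_cons, List.map_append, List.flatten_append,
              List.replicate_succ, List.flatten_cons, ih]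
  have hl : ((ts.map fun p => [p.1, p.2]).flatten).length = 2 * ts.length := by
    rw [List.length_flatten, List.map_map]
    simp [Function.comp_def, mul_comm]
  unfold tj
  rw [e, getD_replicate _ _ r i (by rw [hl]; exact hi), hl]

lemma rv_rep {n r j : ℕ} (hn : 1 ≤ n) (hj : j < r * n) :
    rv (r * n) j % n = rv n (j % n) := by
  unfold rv
  rw [Nat.mod_mod_of_dvd _ (Dvd.intro_left r rfl)]
  have h1 : j % n < n := Nat.mod_lt _ (by omega)
  have h2 : j = n * (j / n) + j % n := (Nat.div_add_mod j n).symm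
  have h3 : j / n < r := Nat.div_lt_of_lt_mul (by rw [mul_comm]; exact hj)
  have h4 : r * n - j = (n - j % n) + (r - 1 - j / n) * n := by
    have h5 : r = (r - 1 - j / n) + j / n + 1 := by omega
    have h6 : r * n = (r - 1 - j / n) * n + n * (j / n) + n := by
      conv_lhs => rw [h5]
      ring
    omega
  rw [h4, Nat.add_mul_mod_self_right]

/-- the conditions at `χ = 0` for the repeated ring -/
theorem Wit.again {ts : List (Tb × Tb)} {V : ℝ} (hts : 1 ≤ ts.length)
    (h : Wit (2 * ts.length) (fun j => tj ts (rv (2 * ts.length) j)) V) {r : ℕ} (hr : 1 ≤ r) :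
    Wit (2 * (many r ts).length) (fun j => tj (many r ts) (rv (2 * (many r ts).length) j))
      (r * V) := by
  have h1 := h.rep (by omega) hr
  have e : 2 * (many r ts).length = r * (2 * ts.length) := by
    rw [many_len]
    ring
  rw [e]
  obtain ⟨kf, e', p, u, hs, hrest⟩ := h1
  refine ⟨kf, e', p, u, fun j hj => ?_, hrest⟩
  rw [hs j hj]
  have h2 : rv (r * (2 * ts.length)) j < r * (2 * ts.length) := rv_lt (by positivity) j
  change tj ts (rv (2 * ts.length) (j % (2 * ts.length))) = tj (many r ts) (rv (r * (2 * ts.length)) j)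
  rw [tj_many ts r h2, rv_rep (by omega) hj]

/-- the complex volume of the ring with its axis: `V` is the volume of `Wit` -/
theorem vol_eq_of {ts : List (Tb × Tb)} {V V' C : ℝ} (hts : 1 ≤ ts.length)
    (h : Wit (2 * ts.length) (fun j => tj ts (rv (2 * ts.length) j)) V)
    (h' : CVC (2 * ts.length) 0 (PAx (2 * ts.length) fun j => tj ts (rv (2 * ts.length) j)) V' C) :
    V' = V :=
  h'.vol.unique (h.max (by omega)).1

end Pool.Agent.U220.RA
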