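import Pool.Agent.U220.RA.All

/-!
# Rings of trees with their axes: the complex volume of the cyclic coverings
-/

set_option autoImplicit false

namespace Pool.Agent.U220.RA

open Finset Filter Topology
open Pool.Agent.TH563.UV (Tb PB AB)
open Pool.Agent.TH563.UV.Arb (toAB ofAB)
open Pool.Agent.TH563.CV (FlatTree)
open Pool.Agent.W719.AR (Fl)
open Pool.Agent.Y481.DR (VD DAng dVol tj rv)
open Pool.Agent.Y481.DX (DAngA)
open Pool.Agent.Y482.Chi (rlam rho)
open Pool.Agent.Y482.DX
open scoped Real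

theorem sum_rep' {A : Type} [AddCommMonoid A] {n r : ℕ} (a : ℕ → A) :
    ∑ j ∈ range (r * n), a (j % n) = r • ∑ j ∈ range n, a j := by
  induction r with
  | zero => simp
  | succ r ih =>
    rw [show (r + 1) * n = r * n + n by ring, Finset.sum_range_add, ih, add_smul, one_smul]
    congr 1
    refine sum_congr rfl fun x hx => ?_
    rw [mem_range] at hx
    rw [Nat.add_comm, Nat.add_mul_mod_self_right, Nat.mod_eq_of_lt hx]

section
variable {n : ℕ} {sh : ℕ → Tb} {y : ℕ → AB} {f g F G : ℕ → Fl}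

theorem pax_rep (hn : 1 ≤ n) (h : PAx n sh y f g F G) (r : ℕ) :
    PAx (r * n) (fun j => sh (j % n)) (fun j => y (j % n)) (fun j => f (j % n))
      (fun j => g (j % n)) (fun j => F (j % n)) (fun j => G (j % n)) := by
  have hlt : ∀ j, j % n < n := fun j => Nat.mod_lt _ (by omega)
  obtain ⟨h1, h2⟩ := h
  refine ⟨fun j _ => h1 _ (hlt j), fun j _ => h2.pos _ (hlt j), fun j _ => h2.diag _ (hlt j),
    fun j _ => h2.tree _ (hlt j), fun j _ => ?_, ?_, ?_⟩
  · have := h2.vert (j % n) (hlt j)
    simp only [succ_mod]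
    exact this
  · simp only [Nat.zero_mod]
    exact h2.long
  · rw [sum_rep' (fun j => rho (f j) (g j) (F j) (G j)), h2.mer, smul_zero]

theorem dvol_rep (r : ℕ) : dVol (r * n) (fun j => y (j % n)) (fun j => f (j % n))
    (fun j => g (j % n)) (fun j => F (j % n)) (fun j => G (j % n)) = r * dVol n y f g F G := by
  unfold dVol
  rw [sum_rep' (fun j => (y j).vol + ((f j).vol + (g j).vol + (F j).vol + (G j).vol)),
    nsmul_eq_mul]

theorem dsum_rep (r : ℕ) (t : ℕ → FlatTree) (x : ℕ → RP) :
    dsum (r * n) (fun j => f (j % n)) (fun j => g (j % n)) (fun j => F (j % n))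
      (fun j => G (j % n)) (fun j => t (j % n)) (fun j => x (j % n)) =
      r * dsum n f g F G t x := by
  unfold dsum Pool.Agent.Y482.Cv.csum
  rw [sum_rep' (fun j => (x j).term (f j) (g j) (F j) (G j)),
    sum_rep' (fun j => (t j).complexVolume), nsmul_eq_mul, nsmul_eq_mul]
  ring

end

theorem even_mod {n a : ℕ} (hn : Even n) : Even (a % n) ↔ Even a := by
  conv_rhs => rw [← Nat.div_add_mod a n]
  rw [Nat.even_add]
  constructor
  · intro h
    simp [h, hn]
  · intro h
    have h1 : Even (n * (a / n)) := hn.mul_right _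
    exact h.1 h1

theorem vfl_congr {j j' : ℕ} {w : ℤ} {l : List TP} {x y : RP} (hj : Even j ↔ Even j')
    (h : VFl j w l x y) : VFl j' w l x y := by
  refine ⟨h.ends, h.fill, h.nil, fun t ht => ?_, h.between, fun t ht => ?_, h.out⟩
  · have h1 := h.first t ht
    rw [Int.even_add, Int.even_coe_nat] at h1 ⊢
    rw [h1, hj]
  · rw [← hj]
    exact h.last t ht

theorem flat_rep {n : ℕ} (hn : 1 ≤ n) (he : Even n) {t : ℕ → FlatTree} {x : ℕ → RP}
    (h : DFlat n 0 t x) (r : ℕ) :
    DFlat (r * n) 0 (fun j => t (j % n)) (fun j => x (j % n)) := by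
  have hlt : ∀ j, j % n < n := fun j => Nat.mod_lt _ (by omega)
  refine ⟨fun j _ => h.inner _ (hlt j), fun j _ => h.tree _ (hlt j), fun j _ => ?_, ?_⟩
  · have h1 := h.vert (j % n) (hlt j)
    simp only [succ_mod]
    refine vfl_congr ?_ h1
    rw [← succ_mod (n := n) (r := r) (j := j), even_mod he]
  · rw [sum_rep' (fun j => (x j).along), h.axis, smul_zero]

/-- other representatives of the Chern-Simons number -/
theorem cvc_shift {n : ℕ} {c : ℤ} {P : AP} {V C C' : ℝ} (h : CVC n c P V C)
    (hk : ∃ k : ℤ, C' = C + k * π ^ 2) : CVC n c P V C' := by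
  obtain ⟨k, rfl⟩ := hk
  refine ⟨h.vol, h.flat, fun f g F G t x h1 h2 h3 => ?_⟩
  obtain ⟨l, hl⟩ := h.sum f g F G t x h1 h2 h3
  refine ⟨l + k, ?_⟩
  rw [hl]
  push_cast
  linear_combination (-(k * (π : ℂ) ^ 2)) * Complex.I_sq

/-- the complex volume of the coverings is a multiple of the complex volume -/
theorem cvc_rep {n : ℕ} (hn : 1 ≤ n) (he : Even n) {sh : ℕ → Tb} {V C V' C' : ℝ} {r : ℕ}
    (h : CVC n 0 (PAx n sh) V C) (h' : CVC (r * n) 0 (PAx (r * n) fun j => sh (j % n)) V' C')
    (hV : V' = r * V) : ∃ k : ℤ, C' = r * C + k * π ^ 2 := by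
  obtain ⟨f, g, F, G, t, x, h1, h2, h3⟩ := h.flat
  obtain ⟨k, hk⟩ := h.sum f g F G t x h1 h2 h3
  obtain ⟨l, hl⟩ := h'.sum _ _ _ _ (fun j => t (j % n)) (fun j => x (j % n)) (pax_rep hn h1 r)
    (by
      rw [hV, ← h2]
      exact dvol_rep (y := fun j => toAB (t j).angles) (f := f) (g := g) (F := F) (G := G) r)
    (flat_rep hn he h3 r)
  rw [dsum_rep r t x, hk, hV] at hl
  refine ⟨l - r * k, ?_⟩
  have h4 := congrArg Complex.re hl
  simp only [Complex.mul_re, Complex.add_re, Complex.natCast_re, Complex.natCast_im, Complex.I_re,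
    Complex.I_im, Complex.ofReal_re, Complex.ofReal_im, Complex.intCast_re, Complex.intCast_im,
    Complex.add_im, Complex.mul_im, ← Complex.ofReal_pow] at h4
  push_cast
  linarith

/-- in terms of the lists -/
theorem cvc_many {ts : List (Tb × Tb)} (hts : 1 ≤ ts.length) {V C V' C' : ℝ} {r : ℕ}
    (h : CVC (2 * ts.length) 0 (PAx (2 * ts.length) fun j => tj ts (rv (2 * ts.length) j)) V C)
    (h' : CVC (2 * (many r ts).length) 0 (PAx (2 * (many r ts).length)
      fun j => tj (many r ts) (rv (2 * (many r ts).length) j)) V' C')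
    (hV : V' = r * V) : ∃ k : ℤ, C' = r * C + k * π ^ 2 := by
  have e : 2 * (many r ts).length = r * (2 * ts.length) := by
    rw [many_len]
    ring
  rw [e] at h'
  refine cvc_rep (by omega) (even_two_mul _) h (C' := C') (V' := V') ?_ hV
  have hP : ∀ (y : ℕ → AB) (f g F G : ℕ → Fl),
      PAx (r * (2 * ts.length)) (fun j => tj ts (rv (2 * ts.length) (j % (2 * ts.length))))
        y f g F G ↔
      PAx (r * (2 * ts.length)) (fun j => tj (many r ts) (rv (r * (2 * ts.length)) j))
        y f g F G := by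
    intro y f g F G
    unfold PAx
    refine and_congr ?_ Iff.rfl
    refine forall₂_congr fun j hj => ?_
    have h2 : rv (r * (2 * ts.length)) j < r * (2 * ts.length) :=
      Pool.Agent.Y481.DR.rv_lt (by omega) j
    change (y j).shape = tj ts (rv (2 * ts.length) (j % (2 * ts.length))) ↔
      (y j).shape = tj (many r ts) (rv (r * (2 * ts.length)) j)
    rw [tj_many ts r h2, rv_rep (by omega) hj]
  have hE : (PAx (r * (2 * ts.length)) fun j => tj ts (rv (2 * ts.length) (j % (2 * ts.length)))) =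
      PAx (r * (2 * ts.length)) fun j => tj (many r ts) (rv (r * (2 * ts.length)) j) := by
    funext y f g F G
    exact propext (hP y f g F G)
  rw [hE]
  exact h'

end Pool.Agent.U220.RA
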