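import Pool.Agent.U220.RA.Quant
import Pool.Agent.U220.RA.Flat

/-!
# Rings of trees with their axes: the loss of volume when the axis is filled
-/

set_option autoImplicit false

namespace Pool.Agent.U220.RA

open Finset Filter Topology
open Complex (exp log cos sin I)
open Pool.Agent.TH563.UV (Tb PB AB)
open Pool.Agent.W711.HT hiding XX
open Pool.Agent.W719.AR (Fl)
open Pool.Agent.W737.AR (Lf)
open Pool.Agent.Y481.DR (VD DAng dVol)
open Pool.Agent.Y481.DX (DAngA CritV rlamD_const)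
open Pool.Agent.Y482.Chi (rlam rho)
open Pool.Agent.Y482.Cv (cf cg cF cG lin)
open Pool.Agent.Y482.Cz (BG)
open Pool.Agent.Y482.DX (PC PAx)
open Pool.Agent.N561 (CG gg vg)
open Pool.Agent.N561.G
open Pool.Agent.N566.PS
open scoped Real

/-- the quadratic gap at a tetrahedron pair -/
def Gp (x : Fl) (κ : ℝ) : Prop := ∀ y : Fl, y.Pos → y.vol ≤ x.vol - Lf x y - κ * nsq x y

lemma Gp.mono {x : Fl} {κ κ' : ℝ} (h : κ ≤ κ') (H : Gp x κ') : Gp x κ := by
  intro y hy
  have h1 := H y hy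
  have h2 := mul_le_mul_of_nonneg_right h (nsq_nonneg x y)
  linarith

lemma Lf_self (x : Fl) : Lf x x = 0 := by
  unfold Lf
  ring

section
variable {n : ℕ} {kf : Bool → ℕ → ℤ → ℕ} {e : ℕ → ℕ → ℂ → ℂ → ℂ} {p : ℕ → PB} {u : ℕ → ℂ}
  {sh : ℕ → Tb}

/-- the sum of the linear terms vanishes -/
lemma lin_zero (hn : 1 ≤ n) (hs : ∀ j < n, (p j).shape = sh j)
    (hp : ∀ j < n, hpv kf e 0 (p j) ∧ lcv kf e 0 (p j))
    (hX : CritV n (fun j => (p j).wt) (fun j => lgv kf e 0 (p j)) (fun j => (p j).rz) 0 u)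
    {y : ℕ → AB} {f g F G : ℕ → Fl} (hL : Loc n sh y f g F G) :
    ∑ j ∈ range n, (2 * LLv kf e 0 (p j) (y j) + lin n (fun j => (p j).rz) 0 u f g F G j) = 0 := by
  rw [linD_sumV hn hp hX (fun j hj => by rw [hL.shape j hj, hs j hj]) hL.tree hL.vert]
  refine sum_eq_zero fun j hj => ?_
  unfold Pool.Agent.Y482.Chi.TX
  rw [zero_div, Pool.Agent.Y482.Cv.lcr0]
  simp

lemma lin_lf (hX : CritV n (fun j => (p j).wt) (fun j => lgv kf e 0 (p j)) (fun j => (p j).rz) 0 u)
    {y : ℕ → AB} {f g F G : ℕ → Fl} (hL : Loc n sh y f g F G) {j : ℕ} (hj : j < n) :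
    lin n (fun j => (p j).rz) 0 u f g F G j =
      Lf (cf (fun j => (p j).rz) 0 u j) (f j) + Lf (cg n (fun j => (p j).rz) 0 u j) (g j) +
      Lf (cF (fun j => (p j).rz) 0 u j) (F j) + Lf (cG n (fun j => (p j).rz) 0 u j) (G j) := by
  obtain ⟨p1, p2, p3, p4⟩ := hL.pos j hj
  obtain ⟨d1, d2⟩ := hL.diag j hj
  exact (Pool.Agent.Y482.Cz.blk_lf (hX.bz j hj) p1 p2 p3 p4 d1 d2).symm

/-- the gap -/
theorem gap_core (hn : 1 ≤ n) (hs : ∀ j < n, (p j).shape = sh j)
    (hp : ∀ j < n, hpv kf e 0 (p j) ∧ lcv kf e 0 (p j))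
    (hX : CritV n (fun j => (p j).wt) (fun j => lgv kf e 0 (p j)) (fun j => (p j).rz) 0 u)
    {κ : ℝ} (hκ : ∀ j < n, Gp (cf (fun j => (p j).rz) 0 u j) κ ∧
      Gp (cg n (fun j => (p j).rz) 0 u j) κ ∧ Gp (cF (fun j => (p j).rz) 0 u j) κ ∧
      Gp (cG n (fun j => (p j).rz) 0 u j) κ)
    {y : ℕ → AB} {f g F G : ℕ → Fl} (hL : Loc n sh y f g F G) :
    dVol n y f g F G + κ * ∑ j ∈ range n, (nsq (cf (fun j => (p j).rz) 0 u j) (f j) +
      nsq (cg n (fun j => (p j).rz) 0 u j) (g j) + nsq (cF (fun j => (p j).rz) 0 u j) (F j) +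
      nsq (cG n (fun j => (p j).rz) 0 u j) (G j)) ≤
      dVol n (fun j => agv kf e 0 (p j)) (cf (fun j => (p j).rz) 0 u)
        (cg n (fun j => (p j).rz) 0 u) (cF (fun j => (p j).rz) 0 u)
        (cG n (fun j => (p j).rz) 0 u) := by
  have h0 := lin_zero hn hs hp hX hL
  rw [mul_sum]
  unfold dVol
  rw [← sum_add_distrib]
  have hE : ∀ X : ℝ, X = X - ∑ j ∈ range n, (2 * LLv kf e 0 (p j) (y j) +
      lin n (fun j => (p j).rz) 0 u f g F G j) := by
    intro X
    rw [h0, sub_zero]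
  rw [hE (∑ j ∈ range n, ((agv kf e 0 (p j)).vol + _)), ← sum_sub_distrib]
  refine sum_le_sum fun j hj => ?_
  rw [mem_range] at hj
  rw [lin_lf hX hL hj]
  obtain ⟨p1, p2, p3, p4⟩ := hL.pos j hj
  obtain ⟨k1, k2, k3, k4⟩ := hκ j hj
  have h1 := k1 _ p1
  have h2 := k2 _ p2
  have h3 := k3 _ p3
  have h4 := k4 _ p4
  have h5 := vol_LLv kf e Pool.Agent.W120.VC.tet (p j) 0 (hp j hj).1 (y j)
    (by rw [hL.shape j hj, hs j hj]) (hL.tree j hj)
  have e1 : κ * (nsq (cf (fun j => (p j).rz) 0 u j) (f j) +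
      nsq (cg n (fun j => (p j).rz) 0 u j) (g j) + nsq (cF (fun j => (p j).rz) 0 u j) (F j) +
      nsq (cG n (fun j => (p j).rz) 0 u j) (G j)) = κ * nsq (cf (fun j => (p j).rz) 0 u j) (f j) +
      κ * nsq (cg n (fun j => (p j).rz) 0 u j) (g j) + κ * nsq (cF (fun j => (p j).rz) 0 u j) (F j) +
      κ * nsq (cG n (fun j => (p j).rz) 0 u j) (G j) := by ring
  rw [e1]
  linarith

end

/-- What is used of `Wit`: the structure of maximal volume, the quadratic gap for all repetitions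
of the ring, and the linear terms. -/
theorem Wit.gap {n : ℕ} {sh : ℕ → Tb} {V : ℝ} (hn : 1 ≤ n) (h : Wit n sh V) :
    ∃ (κ : ℝ) (y₀ : ℕ → AB) (f₀ g₀ F₀ G₀ : ℕ → Fl), 0 < κ ∧ PAx n sh y₀ f₀ g₀ F₀ G₀ ∧
      dVol n y₀ f₀ g₀ F₀ G₀ = V ∧
      (∀ r : ℕ, 1 ≤ r → ∀ (y : ℕ → AB) (f g F G : ℕ → Fl),
        Loc (r * n) (fun j => sh (j % n)) y f g F G →
        dVol (r * n) y f g F G + κ * ∑ j ∈ range (r * n), (nsq (f₀ (j % n)) (f j) +
          nsq (g₀ (j % n)) (g j) + nsq (F₀ (j % n)) (F j) + nsq (G₀ (j % n)) (G j)) ≤ r * V) ∧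
      ∀ f g F G : ℕ → Fl, Loc n sh y₀ f g F G →
        ∑ j ∈ range n, (Lf (f₀ j) (f j) + Lf (g₀ j) (g j) + Lf (F₀ j) (F j) + Lf (G₀ j) (G j)) = 0 := by
  obtain ⟨kf, e, p, u, hs, hp, hX, hV⟩ := h
  have hA := crit_angAV hn hp hX
  have hP : PAx n sh (fun j => agv kf e 0 (p j)) (cf (fun j => (p j).rz) 0 u)
      (cg n (fun j => (p j).rz) 0 u) (cF (fun j => (p j).rz) 0 u)
      (cG n (fun j => (p j).rz) 0 u) :=
    ⟨fun j hj => by rw [agv_shape, hs j hj], hA⟩
  obtain ⟨κ, hκ0, hκ⟩ := unif (n := n) (P := fun j κ => Gp (cf (fun j => (p j).rz) 0 u j) κ ∧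
      Gp (cg n (fun j => (p j).rz) 0 u j) κ ∧ Gp (cF (fun j => (p j).rz) 0 u j) κ ∧
      Gp (cG n (fun j => (p j).rz) 0 u j) κ)
    (fun j κ κ' _ hl H => ⟨H.1.mono hl, H.2.1.mono hl, H.2.2.1.mono hl, H.2.2.2.mono hl⟩)
    (fun j hj => by
      obtain ⟨p1, p2, p3, p4⟩ := hA.pos j hj
      obtain ⟨k1, q1, H1⟩ := vol_quant _ p1
      obtain ⟨k2, q2, H2⟩ := vol_quant _ p2
      obtain ⟨k3, q3, H3⟩ := vol_quant _ p3
      obtain ⟨k4, q4, H4⟩ := vol_quant _ p4
      refine ⟨min (min k1 k2) (min k3 k4), by positivity, ?_, ?_, ?_, ?_⟩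
      · exact Gp.mono ((min_le_left _ _).trans (min_le_left _ _)) H1
      · exact Gp.mono ((min_le_left _ _).trans (min_le_right _ _)) H2
      · exact Gp.mono ((min_le_right _ _).trans (min_le_left _ _)) H3
      · exact Gp.mono ((min_le_right _ _).trans (min_le_right _ _)) H4)
  refine ⟨κ, _, _, _, _, _, hκ0, hP, hV, fun r hr y f g F G hL => ?_, fun f g F G hL => ?_⟩
  · have hlt : ∀ j, j % n < n := fun j => Nat.mod_lt _ (by omega)
    have hX' : CritV (r * n) (fun j => (p (j % n)).wt) (fun j => lgv kf e 0 (p (j % n)))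
        (fun j => (p (j % n)).rz) 0 (fun j => u (j % n)) := by
      refine ⟨fun j _ => ?_, fun j _ => ?_⟩
      · have := hX.bz (j % n) (hlt j)
        simp only [succ_mod]
        exact this
      · have := hX.vert (j % n) (hlt j)
        simp only [succ_mod]
        exact this
    have e1 : ∀ j, cf (fun j => (p (j % n)).rz) 0 (fun j => u (j % n)) j =
        cf (fun j => (p j).rz) 0 u (j % n) := fun j => by
      simp only [cf]
    have e2 : ∀ j, cg (r * n) (fun j => (p (j % n)).rz) 0 (fun j => u (j % n)) j =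
        cg n (fun j => (p j).rz) 0 u (j % n) := fun j => by
      simp only [cg, succ_mod]
    have e3 : ∀ j, cF (fun j => (p (j % n)).rz) 0 (fun j => u (j % n)) j =
        cF (fun j => (p j).rz) 0 u (j % n) := fun j => by
      simp only [cF]
    have e4 : ∀ j, cG (r * n) (fun j => (p (j % n)).rz) 0 (fun j => u (j % n)) j =
        cG n (fun j => (p j).rz) 0 u (j % n) := fun j => by
      simp only [cG, succ_mod]
    have key := gap_core (p := fun j => p (j % n)) (u := fun j => u (j % n)) (κ := κ)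
      (Nat.mul_pos hr hn) (fun j _ => hs _ (hlt j)) (fun j _ => hp _ (hlt j)) hX'
      (fun j _ => by
        rw [e1, e2, e3, e4]
        exact hκ _ (hlt j)) hL
    simp only [e1, e2, e3, e4] at key
    refine key.trans (le_of_eq ?_)
    rw [← hV]
    unfold dVol
    rw [← sum_rep hn]
    refine sum_congr rfl fun j _ => ?_
    rw [e1, e2, e3, e4]
  · have h1 := lin_zero hn hs hp hX hL
    have h2 := lin_zero hn hs hp hX (loc_of_ax hP)
    rw [sum_add_distrib] at h1 h2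
    have h3 : ∑ j ∈ range n, lin n (fun j => (p j).rz) 0 u (cf (fun j => (p j).rz) 0 u)
        (cg n (fun j => (p j).rz) 0 u) (cF (fun j => (p j).rz) 0 u)
        (cG n (fun j => (p j).rz) 0 u) j = 0 := by
      refine sum_eq_zero fun j hj => ?_
      rw [lin_lf hX (loc_of_ax hP) (mem_range.1 hj), Lf_self, Lf_self, Lf_self, Lf_self]
      norm_num
    rw [h3, add_zero] at h2
    rw [h2, zero_add] at h1
    rw [← h1]
    exact sum_congr rfl fun j hj => (lin_lf hX hL (mem_range.1 hj)).symm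

/-! ### The perturbation -/

/-- the perturbed angles -/
def pf (s t : ℝ) (f : Fl) : Fl := ⟨f.a + t, f.b, f.c - t, f.a', f.b' + s, f.c' - s⟩
/-- the perturbed angles -/
def pg (s t : ℝ) (g : Fl) : Fl := ⟨g.a + t, g.b + (s - t), g.c - s, g.a' - t, g.b', g.c' + t⟩
/-- the perturbed angles -/
def pF (t : ℝ) (F : Fl) : Fl := ⟨F.a + t, F.b - t, F.c, F.a' - t, F.b', F.c' + t⟩
/-- the perturbed angles -/
def pG (s t : ℝ) (G : Fl) : Fl := ⟨G.a + (t - s), G.b, G.c + (s - t), G.a', G.b', G.c'⟩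

lemma nsq_pert (s t : ℝ) (f g F G : Fl) : nsq f (pf s t f) ≤ 5 * (s ^ 2 + t ^ 2) ∧
    nsq g (pg s t g) ≤ 5 * (s ^ 2 + t ^ 2) ∧ nsq F (pF t F) ≤ 5 * (s ^ 2 + t ^ 2) ∧
    nsq G (pG s t G) ≤ 5 * (s ^ 2 + t ^ 2) := by
  unfold nsq pf pg pF pG
  simp only
  refine ⟨?_, ?_, ?_, ?_⟩ <;> nlinarith [sq_nonneg (s + t), sq_nonneg (s - t), sq_nonneg s,
    sq_nonneg t]

lemma vx_pert {w : ℤ} {f g F G f' g' F' G' : Fl} (s t : ℝ)
    (h : Pool.Agent.Y482.Chi.VX w f g F G f' g' F' G') :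
    Pool.Agent.Y482.Chi.VX w (pf s t f) (pg s t g) (pF t F) (pG s t G)
      (pf s t f') (pg s t g') (pF t F') (pG s t G') := by
  refine ⟨?_, ?_, ?_, ?_, fun hw => ?_, fun hw => ?_, ?_⟩
  · have := h.strand
    simp only [pf, pg, pF, pG]
    linarith
  · have := h.axis
    simp only [pf, pg, pF, pG]
    linarith
  · have := h.ca
    simp only [pf, pg, pF, pG]
    linarith
  · have := h.cr
    simp only [pf, pg, pF, pG]
    linarith
  · have := h.even hw
    simp only [pf, pg, pF, pG]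
    constructor <;> linarith [this.1, this.2]
  · have := h.odd hw
    simp only [pf, pg, pF, pG]
    constructor <;> linarith [this.1, this.2]
  · have := h.fill
    have e1 : (pf s t f').tw + (pF t F').tw = f'.tw + F'.tw := by
      simp only [pf, pF, Fl.tw]
      ring
    rw [e1, ← this]
    simp only [pf, pg, pF, pG, Fl.cr]
    ring

lemma vd_pert {w : ℤ} {l : List (Fl × Fl)} {f g F G f' g' F' G' : Fl} (s t : ℝ)
    (h : VD w l f g F G f' g' F' G') :
    VD w l (pf s t f) (pg s t g) (pF t F) (pG s t G)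
      (pf s t f') (pg s t g') (pF t F') (pG s t G') := by
  refine ⟨fun hl => vx_pert s t (h.nil hl), ?_, ?_, ?_, fun y hy => ?_, h.gaps, fun x hx => ?_,
    fun x hx => ?_, ?_⟩
  · have := h.axis
    simp only [pf, pg, pF, pG]
    linarith
  · have := h.ca
    simp only [pf, pg, pF, pG]
    linarith
  · have := h.cr
    simp only [pf, pg, pF, pG]
    linarith
  · have := h.first y hy
    simp only [pf, pg, pF, pG]
    linarith
  · have := h.last x hx
    simp only [pf, pg, pF, pG]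
    linarith
  · obtain ⟨a1, a2, a3, a4⟩ := h.str x hx
    simp only [pf, pg, pF, pG]
    refine ⟨?_, ?_, ?_, ?_⟩ <;> linarith
  · have := h.fill
    have e1 : (pf s t f').tw + (pF t F').tw = f'.tw + F'.tw := by
      simp only [pf, pF, Fl.tw]
      ring
    rw [e1, ← this]
    simp only [pf, pg, pF, pG, Fl.cr]
    ring

end Pool.Agent.U220.RA
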