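import Pool.Agent.U220.RA.Asym

/-!
# Rings of trees with their axes: the loss of volume when the axis is filled, two-sided estimate
-/

set_option autoImplicit false

namespace Pool.Agent.U220.RA

open Finset Filter Topology
open Pool.Agent.TH563.UV (Tb PB AB)
open Pool.Agent.W719.AR (Fl)
open Pool.Agent.W737.AR (Lf)
open Pool.Agent.Y481.DR (VD DAng dVol tj rv)
open Pool.Agent.Y481.DX (DAngA rlamD_const)
open Pool.Agent.Y482.Chi (rlam rho)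
open Pool.Agent.Y482.DX (PC PAx)
open scoped Real

section
variable {n : ℕ} {sh : ℕ → Tb} {y : ℕ → AB} {f g F G : ℕ → Fl} {s t : ℝ}

lemma loc_pert (h : Loc n sh y f g F G)
    (hp : ∀ j < n, (pf s t (f j)).Pos ∧ (pg s t (g j)).Pos ∧ (pF t (F j)).Pos ∧
      (pG s t (G j)).Pos) :
    Loc n sh y (fun j => pf s t (f j)) (fun j => pg s t (g j)) (fun j => pF t (F j))
      (fun j => pG s t (G j)) := by
  refine ⟨h.shape, hp, fun j hj => ?_, h.tree, fun j hj => vd_pert s t (h.vert j hj)⟩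
  obtain ⟨d1, d2⟩ := h.diag j hj
  simp only [pf, pg, pF, pG]
  constructor <;> linarith

lemma loc_rep (hn : 1 ≤ n) (h : Loc n sh y f g F G) (r : ℕ) :
    Loc (r * n) (fun j => sh (j % n)) (fun j => y (j % n)) (fun j => f (j % n))
      (fun j => g (j % n)) (fun j => F (j % n)) (fun j => G (j % n)) := by
  have hlt : ∀ j, j % n < n := fun j => Nat.mod_lt _ (by omega)
  refine ⟨fun j _ => h.shape _ (hlt j), fun j _ => h.pos _ (hlt j), fun j _ => h.diag _ (hlt j),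
    fun j _ => h.tree _ (hlt j), fun j _ => ?_⟩
  have := h.vert (j % n) (hlt j)
  simp only [succ_mod]
  exact this

end

lemma rho_pert (s t : ℝ) (f g F G : Fl) :
    rho (pf s t f) (pg s t g) (pF t F) (pG s t G) = rho f g F G - 2 * t := by
  unfold rho pf pg pF pG
  ring

lemma rlam_pert (s t : ℝ) (f g F G : Fl) :
    rlam (pf s t f) (pg s t g) (pF t F) (pG s t G) = rlam f g F G + 2 * s := by
  unfold rlam pf pg pF pG
  ring

lemma sq7 (a b c d e f g : ℝ) : (a + b + c + d + e + f + g) ^ 2 ≤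
    7 * (a ^ 2 + b ^ 2 + c ^ 2 + d ^ 2 + e ^ 2 + f ^ 2 + g ^ 2) := by
  have h : 7 * (a ^ 2 + b ^ 2 + c ^ 2 + d ^ 2 + e ^ 2 + f ^ 2 + g ^ 2) -
      (a + b + c + d + e + f + g) ^ 2 = (a - b) ^ 2 + (a - c) ^ 2 + (a - d) ^ 2 + (a - e) ^ 2 +
      (a - f) ^ 2 + (a - g) ^ 2 + (b - c) ^ 2 + (b - d) ^ 2 + (b - e) ^ 2 + (b - f) ^ 2 +
      (b - g) ^ 2 + (c - d) ^ 2 + (c - e) ^ 2 + (c - f) ^ 2 + (c - g) ^ 2 + (d - e) ^ 2 +
      (d - f) ^ 2 + (d - g) ^ 2 + (e - f) ^ 2 + (e - g) ^ 2 + (f - g) ^ 2 := by ring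
  have h2 : 0 ≤ (a - b) ^ 2 + (a - c) ^ 2 + (a - d) ^ 2 + (a - e) ^ 2 +
      (a - f) ^ 2 + (a - g) ^ 2 + (b - c) ^ 2 + (b - d) ^ 2 + (b - e) ^ 2 + (b - f) ^ 2 +
      (b - g) ^ 2 + (c - d) ^ 2 + (c - e) ^ 2 + (c - f) ^ 2 + (c - g) ^ 2 + (d - e) ^ 2 +
      (d - f) ^ 2 + (d - g) ^ 2 + (e - f) ^ 2 + (e - g) ^ 2 + (f - g) ^ 2 := by positivity
  linarith

lemma rlam_diff (f g F G f' g' F' G' : Fl) : (rlam f' g' F' G' - rlam f g F G) ^ 2 ≤
    7 * (nsq f f' + nsq g g' + nsq F F' + nsq G G') := by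
  have h := sq7 (f'.b' - f.b') (g'.a' - g.a') (g'.c' - g.c') (G'.c - G.c) (G'.b' - G.b')
    (F'.a - F.a) (G'.a' - G.a')
  have e : rlam f' g' F' G' - rlam f g F G = (f'.b' - f.b') + (g'.a' - g.a') + (g'.c' - g.c') +
    (G'.c - G.c) + (G'.b' - G.b') + (F'.a - F.a) + (G'.a' - G.a') := by
    unfold rlam
    ring
  rw [e]
  refine h.trans (mul_le_mul_of_nonneg_left ?_ (by norm_num))
  unfold nsq
  linarith [sq_nonneg (f'.a - f.a), sq_nonneg (f'.b - f.b), sq_nonneg (f'.c - f.c),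
    sq_nonneg (f'.a' - f.a'), sq_nonneg (f'.c' - f.c'), sq_nonneg (g'.a - g.a),
    sq_nonneg (g'.b - g.b), sq_nonneg (g'.c - g.c), sq_nonneg (g'.b' - g.b'),
    sq_nonneg (F'.b - F.b), sq_nonneg (F'.c - F.c), sq_nonneg (F'.a' - F.a'),
    sq_nonneg (F'.b' - F.b'), sq_nonneg (F'.c' - F.c'), sq_nonneg (G'.a - G.a),
    sq_nonneg (G'.b - G.b), sq_nonneg (G'.c' - G.c')]

lemma rho_diff (f g F G f' g' F' G' : Fl) : (rho f' g' F' G' - rho f g F G) ^ 2 ≤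
    7 * (nsq f f' + nsq g g' + nsq F F' + nsq G G') := by
  have h := sq7 (f'.c' - f.c') (f'.b' - f.b') (g'.a' - g.a') (F'.a' - F.a') (G'.a - G.a)
    (G'.c - G.c) (G'.b' - G.b')
  have e : rho f' g' F' G' - rho f g F G = (f'.c' - f.c') + (f'.b' - f.b') + (g'.a' - g.a') +
    (F'.a' - F.a') + (G'.a - G.a) + (G'.c - G.c) + (G'.b' - G.b') := by
    unfold rho
    ring
  rw [e]
  refine h.trans (mul_le_mul_of_nonneg_left ?_ (by norm_num))
  unfold nsq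
  linarith [sq_nonneg (f'.a - f.a), sq_nonneg (f'.b - f.b), sq_nonneg (f'.c - f.c),
    sq_nonneg (f'.a' - f.a'), sq_nonneg (g'.a - g.a),
    sq_nonneg (g'.b - g.b), sq_nonneg (g'.c - g.c), sq_nonneg (g'.b' - g.b'),
    sq_nonneg (g'.c' - g.c'), sq_nonneg (F'.a - F.a),
    sq_nonneg (F'.b - F.b), sq_nonneg (F'.c - F.c),
    sq_nonneg (F'.b' - F.b'), sq_nonneg (F'.c' - F.c'),
    sq_nonneg (G'.b - G.b), sq_nonneg (G'.a' - G.a'), sq_nonneg (G'.c' - G.c')]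

/-- the two-sided estimate -/
theorem Wit.asymp {n : ℕ} {sh : ℕ → Tb} {V : ℝ} (hn : 1 ≤ n) (h : Wit n sh V) :
    ∃ c C : ℝ, 0 < c ∧ 0 < C ∧ ∀ (r : ℕ) (m : ℤ) (V' : ℝ), 1 ≤ r →
      IsGreatest {W : ℝ | ∃ (y : ℕ → AB) (f g F G : ℕ → Fl),
        PC (r * n) m (fun j => sh (j % n)) y f g F G ∧ dVol (r * n) y f g F G = W} V' →
      c * ((r : ℝ) / ((r : ℝ) ^ 2 + (m : ℝ) ^ 2)) ≤ r * V - V' ∧
        r * V - V' ≤ C * ((r : ℝ) / ((r : ℝ) ^ 2 + (m : ℝ) ^ 2)) := by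
  obtain ⟨κ, y₀, f₀, g₀, F₀, G₀, hκ, hP, hV, hgap, hlin⟩ := h.gap hn
  have hL₀ := loc_of_ax hP
  have hn0 : (1 : ℝ) ≤ n := by exact_mod_cast hn
  -- the bound from above
  obtain ⟨ε, hε, hlow⟩ := unif (n := n) (P := fun j κ => Low (f₀ j) κ ∧ Low (g₀ j) κ ∧
      Low (F₀ j) κ ∧ Low (G₀ j) κ)
    (fun j κ κ' h0 hl H => ⟨H.1.mono h0 hl, H.2.1.mono h0 hl, H.2.2.1.mono h0 hl,
      H.2.2.2.mono h0 hl⟩)
    (fun j hj => by
      obtain ⟨p1, p2, p3, p4⟩ := hL₀.pos j hj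
      obtain ⟨k1, q1, H1⟩ := low_ex _ p1
      obtain ⟨k2, q2, H2⟩ := low_ex _ p2
      obtain ⟨k3, q3, H3⟩ := low_ex _ p3
      obtain ⟨k4, q4, H4⟩ := low_ex _ p4
      have h0 : 0 < min (min k1 k2) (min k3 k4) := by positivity
      refine ⟨min (min k1 k2) (min k3 k4), h0, ?_, ?_, ?_, ?_⟩
      · exact Low.mono h0 ((min_le_left _ _).trans (min_le_left _ _)) H1
      · exact Low.mono h0 ((min_le_left _ _).trans (min_le_right _ _)) H2
      · exact Low.mono h0 ((min_le_right _ _).trans (min_le_left _ _)) H3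
      · exact Low.mono h0 ((min_le_right _ _).trans (min_le_right _ _)) H4)
  have hpert : ∀ s t : ℝ, 5 * (s ^ 2 + t ^ 2) ≤ ε →
      Loc n sh y₀ (fun j => pf s t (f₀ j)) (fun j => pg s t (g₀ j)) (fun j => pF t (F₀ j))
        (fun j => pG s t (G₀ j)) ∧
      V - n * (ε⁻¹ * (20 * (s ^ 2 + t ^ 2))) ≤ dVol n y₀ (fun j => pf s t (f₀ j))
        (fun j => pg s t (g₀ j)) (fun j => pF t (F₀ j)) (fun j => pG s t (G₀ j)) := by
    intro s t hst
    have hj : ∀ j < n, ((pf s t (f₀ j)).Pos ∧ (pg s t (g₀ j)).Pos ∧ (pF t (F₀ j)).Pos ∧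
        (pG s t (G₀ j)).Pos) ∧ (f₀ j).vol + (g₀ j).vol + (F₀ j).vol + (G₀ j).vol -
        (Lf (f₀ j) (pf s t (f₀ j)) + Lf (g₀ j) (pg s t (g₀ j)) + Lf (F₀ j) (pF t (F₀ j)) +
          Lf (G₀ j) (pG s t (G₀ j))) - ε⁻¹ * (20 * (s ^ 2 + t ^ 2)) ≤
        (pf s t (f₀ j)).vol + (pg s t (g₀ j)).vol + (pF t (F₀ j)).vol + (pG s t (G₀ j)).vol := by
      intro j hj
      obtain ⟨⟨-, -, -, a1, -, -, -, a2⟩, ⟨-, -, -, a3, -, -, -, a4⟩,
        ⟨-, -, -, a5, -, -, -, a6⟩, ⟨-, -, -, a7, -, -, -, a8⟩⟩ := hL₀.pos j hj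
      obtain ⟨l1, l2, l3, l4⟩ := hlow j hj
      obtain ⟨q1, q2, q3, q4⟩ := nsq_pert s t (f₀ j) (g₀ j) (F₀ j) (G₀ j)
      obtain ⟨b1, c1⟩ := l1 (pf s t (f₀ j)) (by simp only [pf]; linarith)
        (by simp only [pf]; linarith) (q1.trans hst)
      obtain ⟨b2, c2⟩ := l2 (pg s t (g₀ j)) (by simp only [pg]; linarith)
        (by simp only [pg]; linarith) (q2.trans hst)
      obtain ⟨b3, c3⟩ := l3 (pF t (F₀ j)) (by simp only [pF]; linarith)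
        (by simp only [pF]; linarith) (q3.trans hst)
      obtain ⟨b4, c4⟩ := l4 (pG s t (G₀ j)) (by simp only [pG]; linarith)
        (by simp only [pG]; linarith) (q4.trans hst)
      have hE : 0 ≤ ε⁻¹ := by positivity
      have d1 := mul_le_mul_of_nonneg_left q1 hE
      have d2 := mul_le_mul_of_nonneg_left q2 hE
      have d3 := mul_le_mul_of_nonneg_left q3 hE
      have d4 := mul_le_mul_of_nonneg_left q4 hE
      have e1 : ε⁻¹ * (20 * (s ^ 2 + t ^ 2)) = ε⁻¹ * (5 * (s ^ 2 + t ^ 2)) +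
        ε⁻¹ * (5 * (s ^ 2 + t ^ 2)) + ε⁻¹ * (5 * (s ^ 2 + t ^ 2)) +
        ε⁻¹ * (5 * (s ^ 2 + t ^ 2)) := by ring
      refine ⟨⟨b1, b2, b3, b4⟩, ?_⟩
      rw [e1]
      linarith
    have hL := loc_pert hL₀ fun j hj' => (hj j hj').1
    refine ⟨hL, ?_⟩
    have h1 := hlin _ _ _ _ hL
    have h2 : ∑ j ∈ range n, (((y₀ j).vol + ((f₀ j).vol + (g₀ j).vol + (F₀ j).vol + (G₀ j).vol)) -
        (Lf (f₀ j) (pf s t (f₀ j)) + Lf (g₀ j) (pg s t (g₀ j)) + Lf (F₀ j) (pF t (F₀ j)) +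
          Lf (G₀ j) (pG s t (G₀ j))) - ε⁻¹ * (20 * (s ^ 2 + t ^ 2))) ≤
        ∑ j ∈ range n, ((y₀ j).vol + ((pf s t (f₀ j)).vol + (pg s t (g₀ j)).vol +
          (pF t (F₀ j)).vol + (pG s t (G₀ j)).vol)) := by
      refine sum_le_sum fun j hj' => ?_
      have := (hj j (mem_range.1 hj')).2
      linarith
    rw [sum_sub_distrib, sum_sub_distrib, h1, sub_zero, sum_const, card_range, nsmul_eq_mul] at h2
    rw [← hV]
    unfold dVol
    exact h2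
  have hup : ∀ (r : ℕ) (m : ℤ) (V' : ℝ), 1 ≤ r →
      IsGreatest {W : ℝ | ∃ (y : ℕ → AB) (f g F G : ℕ → Fl),
        PC (r * n) m (fun j => sh (j % n)) y f g F G ∧ dVol (r * n) y f g F G = W} V' →
      20 * π ^ 2 / ε ≤ ((r : ℝ) * n) ^ 2 + 4 * (m : ℝ) ^ 2 →
      r * V - V' ≤ 80 * π ^ 2 * n * ε⁻¹ * ((r : ℝ) / ((r : ℝ) ^ 2 + (m : ℝ) ^ 2)) := by
    intro r m V' hr hV' hB
    have hr0 : (1 : ℝ) ≤ r := by exact_mod_cast hr
    obtain ⟨R, hR⟩ : ∃ R : ℝ, R = (r : ℝ) * n := ⟨_, rfl⟩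
    obtain ⟨B, hBd⟩ : ∃ B : ℝ, B = R ^ 2 + 4 * (m : ℝ) ^ 2 := ⟨_, rfl⟩
    rw [← hR, ← hBd] at hB
    have hR0 : 0 < R := by rw [hR]; positivity
    have hB0 : 0 < B := by rw [hBd]; positivity
    have hst : (-(4 * π * m) / B) ^ 2 + (2 * π * R / B) ^ 2 = 4 * π ^ 2 / B := by
      have e1 : (-(4 * π * m) / B) ^ 2 + (2 * π * R / B) ^ 2 =
          4 * π ^ 2 * (R ^ 2 + 4 * (m : ℝ) ^ 2) / B ^ 2 := by
        field_simp
        ring
      rw [e1, ← hBd]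
      field_simp
    have hsm : 5 * ((-(4 * π * m) / B) ^ 2 + (2 * π * R / B) ^ 2) ≤ ε := by
      rw [hst]
      rw [div_le_iff₀ hε] at hB
      rw [← mul_div_assoc, div_le_iff₀ hB0]
      linarith
    obtain ⟨hL, hvol⟩ := hpert _ _ hsm
    rw [hst] at hvol
    have hLr := loc_rep hn hL r
    have hPC : PC (r * n) m (fun j => sh (j % n)) (fun j => y₀ (j % n))
        (fun j => pf (-(4 * π * m) / B) (2 * π * R / B) (f₀ (j % n)))
        (fun j => pg (-(4 * π * m) / B) (2 * π * R / B) (g₀ (j % n)))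
        (fun j => pF (2 * π * R / B) (F₀ (j % n)))
        (fun j => pG (-(4 * π * m) / B) (2 * π * R / B) (G₀ (j % n))) := by
      refine ⟨hLr.shape, ⟨hLr.pos, hLr.diag, hLr.tree, hLr.vert, ?_⟩⟩
      simp only [rho_pert, rlam_pert, Nat.zero_mod]
      rw [sum_rep hn (fun j => rho (f₀ j) (g₀ j) (F₀ j) (G₀ j) - 2 * (2 * π * R / B)),
        sum_sub_distrib, hP.2.mer, hP.2.long, sum_const, card_range, nsmul_eq_mul, zero_sub,
        zero_add]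
      have e1 : (r : ℝ) * -((n : ℝ) * (2 * (2 * π * R / B))) = -(4 * π * R ^ 2 / B) := by
        have : (r : ℝ) * -((n : ℝ) * (2 * (2 * π * R / B))) =
          -(4 * π * R * ((r : ℝ) * n) / B) := by ring
        rw [this, ← hR]
        ring
      rw [e1]
      congr 1
      field_simp
      rw [hBd]
      ring
    have hle := hV'.2 ⟨_, _, _, _, _, hPC, rfl⟩
    have e2 : dVol (r * n) (fun j => y₀ (j % n))
        (fun j => pf (-(4 * π * m) / B) (2 * π * R / B) (f₀ (j % n)))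
        (fun j => pg (-(4 * π * m) / B) (2 * π * R / B) (g₀ (j % n)))
        (fun j => pF (2 * π * R / B) (F₀ (j % n)))
        (fun j => pG (-(4 * π * m) / B) (2 * π * R / B) (G₀ (j % n))) =
        r * dVol n y₀ (fun j => pf (-(4 * π * m) / B) (2 * π * R / B) (f₀ j))
        (fun j => pg (-(4 * π * m) / B) (2 * π * R / B) (g₀ j))
        (fun j => pF (2 * π * R / B) (F₀ j))
        (fun j => pG (-(4 * π * m) / B) (2 * π * R / B) (G₀ j)) := by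
      unfold dVol
      exact sum_rep hn (fun j => (y₀ j).vol + ((pf (-(4 * π * m) / B) (2 * π * R / B) (f₀ j)).vol +
        (pg (-(4 * π * m) / B) (2 * π * R / B) (g₀ j)).vol + (pF (2 * π * R / B) (F₀ j)).vol +
        (pG (-(4 * π * m) / B) (2 * π * R / B) (G₀ j)).vol))
    rw [e2] at hle
    have h3 := mul_le_mul_of_nonneg_left hvol (show (0 : ℝ) ≤ r by positivity)
    have h4 : r * V - V' ≤ r * (n * (ε⁻¹ * (20 * (4 * π ^ 2 / B)))) := by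
      have e3 : (r : ℝ) * (V - n * (ε⁻¹ * (20 * (4 * π ^ 2 / B)))) =
        r * V - r * (n * (ε⁻¹ * (20 * (4 * π ^ 2 / B)))) := by ring
      rw [e3] at h3
      linarith
    refine h4.trans ?_
    have h5 : (r : ℝ) ^ 2 + (m : ℝ) ^ 2 ≤ B := by
      rw [hBd, hR]
      have : (r : ℝ) ^ 2 ≤ (r * n) ^ 2 := by
        refine pow_le_pow_left₀ (by positivity) ?_ 2
        exact le_mul_of_one_le_right (by positivity) hn0
      nlinarith [sq_nonneg (m : ℝ)]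
    have h6 : 0 < (r : ℝ) ^ 2 + (m : ℝ) ^ 2 := by positivity
    have e4 : (r : ℝ) * (n * (ε⁻¹ * (20 * (4 * π ^ 2 / B)))) =
      80 * π ^ 2 * n * ε⁻¹ * ((r : ℝ) / B) := by ring
    rw [e4]
    gcongr
  -- finitely many cases
  obtain ⟨N, hN⟩ := exists_nat_gt (20 * π ^ 2 / ε)
  obtain ⟨C2, hC2⟩ := ((range (N + 1) ×ˢ Finset.Icc (-(N : ℤ)) N).image
    fun q : ℕ × ℤ => ((q.1 : ℝ) * V - sSup {W : ℝ | ∃ (y : ℕ → AB) (f g F G : ℕ → Fl),
      PC (q.1 * n) q.2 (fun j => sh (j % n)) y f g F G ∧ dVol (q.1 * n) y f g F G = W}) *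
      (((q.1 : ℝ) ^ 2 + (q.2 : ℝ) ^ 2) / q.1)).bddAbove
  refine ⟨κ * π ^ 2 * (n / (n ^ 2 + 4)), Max.max (80 * π ^ 2 * n * ε⁻¹) C2, by positivity,
    lt_max_of_lt_left (by positivity), fun r m V' hr hV' => ⟨?_, ?_⟩⟩
  · -- the bound from below
    have hr0 : (1 : ℝ) ≤ r := by exact_mod_cast hr
    obtain ⟨⟨y, f, g, F, G, h1, h2⟩, -⟩ := hV'
    have hL := loc_of_cl h1
    have h3 := hgap r hr y f g F G hL
    rw [h2] at h3
    obtain ⟨S, hS⟩ : ∃ S : ℝ, S = ∑ j ∈ range (r * n), (nsq (f₀ (j % n)) (f j) +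
          nsq (g₀ (j % n)) (g j) + nsq (F₀ (j % n)) (F j) + nsq (G₀ (j % n)) (G j)) := ⟨_, rfl⟩
    rw [← hS] at h3
    obtain ⟨R, hR⟩ : ∃ R : ℝ, R = (r : ℝ) * n := ⟨_, rfl⟩
    have hR0 : 0 < R := by rw [hR]; positivity
    have hRc : ((r * n : ℕ) : ℝ) = R := by rw [hR]; push_cast; rfl
    have hlt : ∀ j, j % n < n := fun j => Nat.mod_lt _ (by omega)
    obtain ⟨lam, hlam⟩ : ∃ lam : ℝ, lam = rlam (f 0) (g 0) (F 0) (G 0) := ⟨_, rfl⟩
    have hc1 := rlamD_const hL.pos hL.diag hL.vert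
    have hc0 := rlamD_const hL₀.pos hL₀.diag hL₀.vert
    have h4 : R * lam ^ 2 ≤ 7 * S := by
      have e0 : R * lam ^ 2 = ∑ _j ∈ range (r * n), lam ^ 2 := by
        rw [sum_const, card_range, nsmul_eq_mul, hRc]
      rw [e0, hS, mul_sum]
      refine sum_le_sum fun j hj => ?_
      have := rlam_diff (f₀ (j % n)) (g₀ (j % n)) (F₀ (j % n)) (G₀ (j % n)) (f j) (g j) (F j) (G j)
      rw [hc1 j (mem_range.1 hj), hc0 _ (hlt j), hP.2.long, sub_zero, ← hlam] at this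
      exact this
    obtain ⟨A, hA⟩ : ∃ A : ℝ, A = ∑ j ∈ range (r * n), rho (f j) (g j) (F j) (G j) := ⟨_, rfl⟩
    have h5 : A ^ 2 ≤ R * (7 * S) := by
      have e1 : A = ∑ j ∈ range (r * n), (rho (f j) (g j) (F j) (G j) -
          rho (f₀ (j % n)) (g₀ (j % n)) (F₀ (j % n)) (G₀ (j % n))) := by
        rw [sum_sub_distrib, ← hA, sum_rep hn (fun j => rho (f₀ j) (g₀ j) (F₀ j) (G₀ j)), hP.2.mer]
        ring
      rw [e1]
      refine (sq_sum_le_card_mul_sum_sq).trans ?_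
      rw [card_range, hRc]
      refine mul_le_mul_of_nonneg_left ?_ hR0.le
      rw [hS, mul_sum]
      exact sum_le_sum fun j _ => rho_diff _ _ _ _ _ _ _ _
    have h6 : A = -(4 * π + 2 * m * lam) := by
      rw [hA, hlam]
      exact h1.2.fill
    have h7 : R ^ 2 * (4 * π) ^ 2 ≤ (R ^ 2 + 4 * (m : ℝ) ^ 2) * (A ^ 2 + R ^ 2 * lam ^ 2) := by
      have e1 : 4 * π = -(A + 2 * m * lam) := by linarith
      rw [e1]
      nlinarith [sq_nonneg (2 * m * A - R ^ 2 * lam)]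
    have h8 : A ^ 2 + R ^ 2 * lam ^ 2 ≤ 14 * R * S := by
      have := mul_le_mul_of_nonneg_left h4 hR0.le
      nlinarith
    have h9 : R * (4 * π) ^ 2 ≤ (R ^ 2 + 4 * (m : ℝ) ^ 2) * (14 * S) := by
      have h10 : (R ^ 2 + 4 * (m : ℝ) ^ 2) * (A ^ 2 + R ^ 2 * lam ^ 2) ≤
          (R ^ 2 + 4 * (m : ℝ) ^ 2) * (14 * R * S) :=
        mul_le_mul_of_nonneg_left h8 (by positivity)
      have h11 := h7.trans h10
      have e2 : R ^ 2 * (4 * π) ^ 2 = R * (R * (4 * π) ^ 2) := by ring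
      have e3 : (R ^ 2 + 4 * (m : ℝ) ^ 2) * (14 * R * S) =
        R * ((R ^ 2 + 4 * (m : ℝ) ^ 2) * (14 * S)) := by ring
      rw [e2, e3] at h11
      exact le_of_mul_le_mul_left h11 hR0
    have h12 : R ^ 2 + 4 * (m : ℝ) ^ 2 ≤ ((n : ℝ) ^ 2 + 4) * ((r : ℝ) ^ 2 + (m : ℝ) ^ 2) := by
      rw [hR]
      nlinarith [sq_nonneg ((n : ℝ) * m), sq_nonneg (r : ℝ)]
    have hS0 : 0 ≤ S := by
      rw [hS]
      exact sum_nonneg fun j _ => add_nonneg (add_nonneg (add_nonneg (nsq_nonneg _ _)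
        (nsq_nonneg _ _)) (nsq_nonneg _ _)) (nsq_nonneg _ _)
    have h13 : (r : ℝ) * n * (16 * π ^ 2) ≤
        ((n : ℝ) ^ 2 + 4) * ((r : ℝ) ^ 2 + (m : ℝ) ^ 2) * (14 * S) := by
      have h14 := h9.trans (mul_le_mul_of_nonneg_right h12 (by positivity))
      rw [hR] at h14
      have e4 : (r : ℝ) * n * (4 * π) ^ 2 = (r : ℝ) * n * (16 * π ^ 2) := by ring
      rw [e4] at h14
      exact h14
    have h15 : π ^ 2 * (n / (n ^ 2 + 4)) * ((r : ℝ) / ((r : ℝ) ^ 2 + (m : ℝ) ^ 2)) ≤ S := by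
      have h16 : 0 < (r : ℝ) ^ 2 + (m : ℝ) ^ 2 := by positivity
      have e5 : π ^ 2 * ((n : ℝ) / (n ^ 2 + 4)) * ((r : ℝ) / ((r : ℝ) ^ 2 + (m : ℝ) ^ 2)) =
        π ^ 2 * (n * r) / ((n ^ 2 + 4) * ((r : ℝ) ^ 2 + (m : ℝ) ^ 2)) := by
        field_simp
      rw [e5, div_le_iff₀ (by positivity)]
      have h17 : 0 ≤ π ^ 2 * ((n : ℝ) * r) := by positivity
      have e7 : ((n : ℝ) ^ 2 + 4) * ((r : ℝ) ^ 2 + (m : ℝ) ^ 2) * (14 * S) =
        14 * (S * (((n : ℝ) ^ 2 + 4) * ((r : ℝ) ^ 2 + (m : ℝ) ^ 2))) := by ring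
      have e8 : (r : ℝ) * n * (16 * π ^ 2) = 16 * (π ^ 2 * ((n : ℝ) * r)) := by ring
      rw [e7, e8] at h13
      linarith
    have h18 := mul_le_mul_of_nonneg_left h15 hκ.le
    have e6 : κ * π ^ 2 * ((n : ℝ) / (n ^ 2 + 4)) * ((r : ℝ) / ((r : ℝ) ^ 2 + (m : ℝ) ^ 2)) =
      κ * (π ^ 2 * ((n : ℝ) / (n ^ 2 + 4)) * ((r : ℝ) / ((r : ℝ) ^ 2 + (m : ℝ) ^ 2))) := by ring
    rw [e6]
    linarith
  · have hr0 : (1 : ℝ) ≤ r := by exact_mod_cast hr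
    have hfr : 0 ≤ (r : ℝ) / ((r : ℝ) ^ 2 + (m : ℝ) ^ 2) := by positivity
    rcases le_or_gt (20 * π ^ 2 / ε) (((r : ℝ) * n) ^ 2 + 4 * (m : ℝ) ^ 2) with hB | hB
    · exact (hup r m V' hr hV' hB).trans (mul_le_mul_of_nonneg_right (le_max_left _ _) hfr)
    · have h6 : 0 < (r : ℝ) ^ 2 + (m : ℝ) ^ 2 := by positivity
      have hrn : (r : ℝ) ≤ r * n := le_mul_of_one_le_right (by positivity) hn0
      have hr1 : r < N := by
        have h1 : (r : ℝ) ≤ (r * n) ^ 2 := by nlinarith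
        have h2 : (r : ℝ) < N := by nlinarith [sq_nonneg (m : ℝ)]
        exact_mod_cast h2
      have hm2 : (m : ℝ) ^ 2 < N := by nlinarith [sq_nonneg ((r : ℝ) * n), sq_nonneg (m : ℝ)]
      have hm1 : m ^ 2 < (N : ℤ) := by exact_mod_cast hm2
      have hm3 : -(N : ℤ) ≤ m ∧ m ≤ N := by constructor <;> nlinarith
      have hmem := hC2 (mem_coe.2 (mem_image.2 ⟨(r, m), mem_product.2
        ⟨mem_range.2 (by omega), Finset.mem_Icc.2 hm3⟩, rfl⟩))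
      simp only at hmem
      rw [hV'.csSup_eq] at hmem
      have h7 : 0 < ((r : ℝ) ^ 2 + (m : ℝ) ^ 2) / r := by positivity
      have h8 : r * V - V' ≤ C2 * ((r : ℝ) / ((r : ℝ) ^ 2 + (m : ℝ) ^ 2)) := by
        rw [← le_div_iff₀ h7] at hmem
        refine hmem.trans (le_of_eq ?_)
        field_simp
      exact h8.trans (mul_le_mul_of_nonneg_right (le_max_right _ _) hfr)

end Pool.Agent.U220.RA
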