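import Pool.Agent.U220.RA.TetQ
import Pool.Agent.U220.RA.All

/-!
# Rings of trees with their axes: quantitative comparison of the volumes of the fillings of the axis
with the volume of the ring with its axis

`Wit.asymp`: if the ring is repeated `r` times and the axis is filled after `m` full twists, then the
loss of volume `r V - V'` is between `c r / (r² + m²)` and `C r / (r² + m²)`.
-/

set_option autoImplicit false

namespace Pool.Agent.U220.RA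

open Finset Filter Topology
open Complex (exp log cos sin I)
open Pool.Agent.TH563.UV (Tb PB AB)
open Pool.Agent.W711.HT hiding XX
open Pool.Agent.W719.AR (Fl)
open Pool.Agent.W737.AR (Lf)
open Pool.Agent.Y481.DR (VD DAng dVol)
open Pool.Agent.Y481.DX (DAngA CritV rlamD_const)
open Pool.Agent.Y482.Chi (rlam rho)
open Pool.Agent.Y482.Cv (cf cg cF cG lin)
open Pool.Agent.Y482.Cz (BG)
open Pool.Agent.Y482.DX (PC PAx)
open Pool.Agent.N561 (CG gg vg)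
open Pool.Agent.N561.G
open Pool.Agent.N566.PS
open scoped Real

/-- squared distance -/
def nsq (x y : Fl) : ℝ :=
  (y.a - x.a) ^ 2 + (y.b - x.b) ^ 2 + (y.c - x.c) ^ 2 +
    ((y.a' - x.a') ^ 2 + (y.b' - x.b') ^ 2 + (y.c' - x.c') ^ 2)

lemma nsq_nonneg (x y : Fl) : 0 ≤ nsq x y := by
  unfold nsq
  positivity

theorem vol_quant (x : Fl) (hx : x.Pos) :
    ∃ κ : ℝ, 0 < κ ∧ ∀ y : Fl, y.Pos → y.vol ≤ x.vol - Lf x y - κ * nsq x y := by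
  obtain ⟨h1, h2, h3, h4, h5, h6, h7, h8⟩ := hx
  obtain ⟨κ1, k1, H1⟩ := tet_quant h1 h2 h3 h4
  obtain ⟨κ2, k2, H2⟩ := tet_quant h5 h6 h7 h8
  refine ⟨min κ1 κ2, lt_min k1 k2, fun y hy => ?_⟩
  obtain ⟨p1, p2, p3, p4, p5, p6, p7, p8⟩ := hy
  have e1 := H1 y.a y.b y.c p1.le p2.le p3.le p4
  have e2 := H2 y.a' y.b' y.c' p5.le p6.le p7.le p8
  have e3 : min κ1 κ2 * ((y.a - x.a) ^ 2 + (y.b - x.b) ^ 2 + (y.c - x.c) ^ 2) ≤
      κ1 * ((y.a - x.a) ^ 2 + (y.b - x.b) ^ 2 + (y.c - x.c) ^ 2) :=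
    mul_le_mul_of_nonneg_right (min_le_left _ _) (by positivity)
  have e4 : min κ1 κ2 * ((y.a' - x.a') ^ 2 + (y.b' - x.b') ^ 2 + (y.c' - x.c') ^ 2) ≤
      κ2 * ((y.a' - x.a') ^ 2 + (y.b' - x.b') ^ 2 + (y.c' - x.c') ^ 2) :=
    mul_le_mul_of_nonneg_right (min_le_right _ _) (by positivity)
  unfold Fl.vol Lf nsq
  rw [mul_add]
  linarith

/-- second order, one variable -/
theorem lobq {x : ℝ} (h0 : 0 < x) (h1 : x < π) : ∃ ε : ℝ, 0 < ε ∧ ∀ a : ℝ, a ^ 2 ≤ ε →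
    GapVol.lob x - a * Real.log (2 * Real.sin x) - ε⁻¹ * a ^ 2 ≤ GapVol.lob (x + a) := by
  have hs : 0 < Real.sin x := Real.sin_pos_of_pos_of_lt_pi h0 h1
  have hL : ContDiffAt ℝ 1 (fun y : ℝ => -Real.log (2 * Real.sin y)) x := by
    refine (ContDiffAt.log ?_ (by positivity)).neg
    exact contDiffAt_const.mul Real.contDiff_sin.contDiffAt
  obtain ⟨K, t, ht, hK⟩ := hL.exists_lipschitzOnWith
  obtain ⟨δ, hδ, hb⟩ := Metric.mem_nhds_iff.1 (Filter.inter_mem ht (Ioo_mem_nhds h0 h1))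
  refine ⟨min ((δ / 2) ^ 2) (1 / (K + 1)), by positivity, fun a ha => ?_⟩
  have ha1 : |a| ≤ δ / 2 := by
    rw [← abs_of_pos (show (0:ℝ) < δ / 2 by positivity)]
    exact sq_le_sq.1 (ha.trans (min_le_left _ _))
  have hsub : Metric.closedBall x |a| ⊆ Metric.ball x δ :=
    Metric.closedBall_subset_ball (by linarith)
  have hd : ∀ y ∈ Metric.closedBall x |a|, HasDerivWithinAt
      (fun y => GapVol.lob y - (-Real.log (2 * Real.sin x)) * y)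
      (-Real.log (2 * Real.sin y) - (-Real.log (2 * Real.sin x))) (Metric.closedBall x |a|) y := by
    intro y hy
    obtain ⟨-, hy1, hy2⟩ := hb (hsub hy)
    have h2 := Pool.Agent.W120.VC.lob_deriv hy1 hy2
    have h3 : HasDerivAt (fun y : ℝ => (-Real.log (2 * Real.sin x)) * y)
        (-Real.log (2 * Real.sin x)) y := by
      simpa using (hasDerivAt_id y).const_mul (-Real.log (2 * Real.sin x))
    exact (h2.sub h3).hasDerivWithinAt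
  have hbound : ∀ y ∈ Metric.closedBall x |a|,
      ‖-Real.log (2 * Real.sin y) - (-Real.log (2 * Real.sin x))‖ ≤ K * |a| := by
    intro y hy
    have h2 := hK.dist_le_mul y (hb (hsub hy)).1 x (hb (Metric.mem_ball_self hδ)).1
    rw [Real.dist_eq] at h2
    rw [Real.norm_eq_abs]
    refine h2.trans ?_
    gcongr
    exact Metric.mem_closedBall.1 hy
  have key := (convex_closedBall x |a|).norm_image_sub_le_of_norm_hasDerivWithin_le hd hbound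
    (Metric.mem_closedBall_self (abs_nonneg a)) (y := x + a)
    (by rw [Metric.mem_closedBall, Real.dist_eq]; simp)
  rw [Real.norm_eq_abs, Real.norm_eq_abs, show x + a - x = a by ring] at key
  have h4 := neg_abs_le (GapVol.lob (x + a) - (-Real.log (2 * Real.sin x)) * (x + a) -
    (GapVol.lob x - (-Real.log (2 * Real.sin x)) * x))
  have h5 : (K : ℝ) * |a| * |a| = K * a ^ 2 := by
    rw [mul_assoc, abs_mul_abs_self]
    ring
  rw [h5] at key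
  have h6 : (K : ℝ) * a ^ 2 ≤ (min ((δ / 2) ^ 2) (1 / ((K : ℝ) + 1)))⁻¹ * a ^ 2 := by
    refine mul_le_mul_of_nonneg_right ?_ (sq_nonneg a)
    have h7 : ((1 : ℝ) / (K + 1))⁻¹ ≤ (min ((δ / 2) ^ 2) (1 / ((K : ℝ) + 1)))⁻¹ :=
      inv_anti₀ (by positivity) (min_le_right _ _)
    rw [one_div, inv_inv] at h7
    rw [one_div]
    linarith
  have h8 : (-Real.log (2 * Real.sin x)) * (x + a) =
      (-Real.log (2 * Real.sin x)) * x - a * Real.log (2 * Real.sin x) := by ring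
  linarith

lemma lobq_mono {x : ℝ} {ε ε' : ℝ} (h0 : 0 < ε) (h : ε ≤ ε') (H : ∀ a : ℝ, a ^ 2 ≤ ε' →
    GapVol.lob x - a * Real.log (2 * Real.sin x) - ε'⁻¹ * a ^ 2 ≤ GapVol.lob (x + a)) :
    ∀ a : ℝ, a ^ 2 ≤ ε →
    GapVol.lob x - a * Real.log (2 * Real.sin x) - ε⁻¹ * a ^ 2 ≤ GapVol.lob (x + a) := by
  intro a ha
  have h1 := H a (ha.trans h)
  have h2 : ε'⁻¹ * a ^ 2 ≤ ε⁻¹ * a ^ 2 :=
    mul_le_mul_of_nonneg_right (inv_anti₀ h0 h) (sq_nonneg a)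
  linarith

lemma six1 (a b c d e f : ℝ) : a ^ 2 ≤ a ^ 2 + b ^ 2 + c ^ 2 + (d ^ 2 + e ^ 2 + f ^ 2) := by
  linarith [sq_nonneg b, sq_nonneg c, sq_nonneg d, sq_nonneg e, sq_nonneg f]

lemma six2 (a b c d e f : ℝ) : b ^ 2 ≤ a ^ 2 + b ^ 2 + c ^ 2 + (d ^ 2 + e ^ 2 + f ^ 2) := by
  linarith [sq_nonneg a, sq_nonneg c, sq_nonneg d, sq_nonneg e, sq_nonneg f]

lemma six3 (a b c d e f : ℝ) : c ^ 2 ≤ a ^ 2 + b ^ 2 + c ^ 2 + (d ^ 2 + e ^ 2 + f ^ 2) := by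
  linarith [sq_nonneg a, sq_nonneg b, sq_nonneg d, sq_nonneg e, sq_nonneg f]

lemma six4 (a b c d e f : ℝ) : d ^ 2 ≤ a ^ 2 + b ^ 2 + c ^ 2 + (d ^ 2 + e ^ 2 + f ^ 2) := by
  linarith [sq_nonneg a, sq_nonneg b, sq_nonneg c, sq_nonneg e, sq_nonneg f]

lemma six5 (a b c d e f : ℝ) : e ^ 2 ≤ a ^ 2 + b ^ 2 + c ^ 2 + (d ^ 2 + e ^ 2 + f ^ 2) := by
  linarith [sq_nonneg a, sq_nonneg b, sq_nonneg c, sq_nonneg d, sq_nonneg f]

lemma six6 (a b c d e f : ℝ) : f ^ 2 ≤ a ^ 2 + b ^ 2 + c ^ 2 + (d ^ 2 + e ^ 2 + f ^ 2) := by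
  linarith [sq_nonneg a, sq_nonneg b, sq_nonneg c, sq_nonneg d, sq_nonneg e]

/-- second order, for an edge -/
def Low (x : Fl) (ε : ℝ) : Prop := ∀ y : Fl, y.a + y.b + y.c = π → y.a' + y.b' + y.c' = π →
  nsq x y ≤ ε → y.Pos ∧ x.vol - Lf x y - ε⁻¹ * nsq x y ≤ y.vol

lemma Low.mono {x : Fl} {ε ε' : ℝ} (h0 : 0 < ε) (h : ε ≤ ε') (H : Low x ε') : Low x ε := by
  intro y h1 h2 h3
  obtain ⟨h4, h5⟩ := H y h1 h2 (h3.trans h)
  have h6 : ε'⁻¹ * nsq x y ≤ ε⁻¹ * nsq x y :=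
    mul_le_mul_of_nonneg_right (inv_anti₀ h0 h) (nsq_nonneg _ _)
  exact ⟨h4, by linarith⟩

theorem low_ex (x : Fl) (hx : x.Pos) : ∃ ε : ℝ, 0 < ε ∧ Low x ε := by
  obtain ⟨h1, h2, h3, h4, h5, h6, h7, h8⟩ := hx
  obtain ⟨e1, p1, H1⟩ := lobq h1 (by linarith)
  obtain ⟨e2, p2, H2⟩ := lobq h2 (by linarith)
  obtain ⟨e3, p3, H3⟩ := lobq h3 (by linarith)
  obtain ⟨e4, p4, H4⟩ := lobq h5 (by linarith)
  obtain ⟨e5, p5, H5⟩ := lobq h6 (by linarith)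
  obtain ⟨e6, p6, H6⟩ := lobq h7 (by linarith)
  obtain ⟨μ, hμ0, m1, m2, m3, m4, m5, m6⟩ : ∃ μ : ℝ, 0 < μ ∧ μ < x.a ∧ μ < x.b ∧ μ < x.c ∧
      μ < x.a' ∧ μ < x.b' ∧ μ < x.c' := by
    refine ⟨min (min x.a (min x.b x.c)) (min x.a' (min x.b' x.c')) / 2, by positivity, ?_⟩
    have hpos : 0 < min (min x.a (min x.b x.c)) (min x.a' (min x.b' x.c')) := by positivity
    have hh : min (min x.a (min x.b x.c)) (min x.a' (min x.b' x.c')) / 2 <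
      min (min x.a (min x.b x.c)) (min x.a' (min x.b' x.c')) := by linarith
    refine ⟨hh.trans_le ?_, hh.trans_le ?_, hh.trans_le ?_, hh.trans_le ?_, hh.trans_le ?_,
      hh.trans_le ?_⟩ <;> simp
  obtain ⟨ε, hε, l1, l2, l3, l4, l5, l6, l7⟩ : ∃ ε : ℝ, 0 < ε ∧ ε ≤ e1 ∧ ε ≤ e2 ∧ ε ≤ e3 ∧
      ε ≤ e4 ∧ ε ≤ e5 ∧ ε ≤ e6 ∧ ε ≤ μ ^ 2 := by
    refine ⟨min (min e1 (min e2 e3)) (min (min e4 (min e5 e6)) (μ ^ 2)), by positivity, ?_⟩
    simp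
  refine ⟨ε, hε, fun y s1 s2 hq => ?_⟩
  have q : ∀ a : ℝ, a ^ 2 ≤ nsq x y → a ^ 2 ≤ ε := fun a ha => ha.trans hq
  have b1 : (y.a - x.a) ^ 2 ≤ nsq x y := six1 _ _ _ _ _ _
  have b2 : (y.b - x.b) ^ 2 ≤ nsq x y := six2 _ _ _ _ _ _
  have b3 : (y.c - x.c) ^ 2 ≤ nsq x y := six3 _ _ _ _ _ _
  have b4 : (y.a' - x.a') ^ 2 ≤ nsq x y := six4 _ _ _ _ _ _
  have b5 : (y.b' - x.b') ^ 2 ≤ nsq x y := six5 _ _ _ _ _ _
  have b6 : (y.c' - x.c') ^ 2 ≤ nsq x y := six6 _ _ _ _ _ _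
  have hp : ∀ u v : ℝ, μ < u → (v - u) ^ 2 ≤ nsq x y → 0 < v := by
    intro u v hu hv
    have h9 : |v - u| ≤ μ := by
      rw [← abs_of_pos hμ0]
      exact sq_le_sq.1 ((q _ hv).trans l7)
    have := (abs_le.1 h9).1
    linarith
  refine ⟨⟨hp _ _ m1 b1, hp _ _ m2 b2, hp _ _ m3 b3, s1, hp _ _ m4 b4, hp _ _ m5 b5,
    hp _ _ m6 b6, s2⟩, ?_⟩
  have r1 := lobq_mono hε l1 H1 _ (q _ b1)
  have r2 := lobq_mono hε l2 H2 _ (q _ b2)
  have r3 := lobq_mono hε l3 H3 _ (q _ b3)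
  have r4 := lobq_mono hε l4 H4 _ (q _ b4)
  have r5 := lobq_mono hε l5 H5 _ (q _ b5)
  have r6 := lobq_mono hε l6 H6 _ (q _ b6)
  rw [show x.a + (y.a - x.a) = y.a by ring] at r1
  rw [show x.b + (y.b - x.b) = y.b by ring] at r2
  rw [show x.c + (y.c - x.c) = y.c by ring] at r3
  rw [show x.a' + (y.a' - x.a') = y.a' by ring] at r4
  rw [show x.b' + (y.b' - x.b') = y.b' by ring] at r5
  rw [show x.c' + (y.c' - x.c') = y.c' by ring] at r6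
  unfold Fl.vol Lf nsq
  clear b1 b2 b3 b4 b5 b6 hp H1 H2 H3 H4 H5 H6 q
  generalize ε⁻¹ = E at *
  have e9 : E * ((y.a - x.a) ^ 2 + (y.b - x.b) ^ 2 + (y.c - x.c) ^ 2 +
    ((y.a' - x.a') ^ 2 + (y.b' - x.b') ^ 2 + (y.c' - x.c') ^ 2)) =
    E * (y.a - x.a) ^ 2 + E * (y.b - x.b) ^ 2 + E * (y.c - x.c) ^ 2 +
    (E * (y.a' - x.a') ^ 2 + E * (y.b' - x.b') ^ 2 + E * (y.c' - x.c') ^ 2) := by ring
  rw [e9]
  linarith

/-- constants for finitely many indices -/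
lemma unif {n : ℕ} {P : ℕ → ℝ → Prop} (hm : ∀ j κ κ', 0 < κ → κ ≤ κ' → P j κ' → P j κ)
    (h : ∀ j < n, ∃ κ, 0 < κ ∧ P j κ) : ∃ κ, 0 < κ ∧ ∀ j < n, P j κ := by
  induction n with
  | zero => exact ⟨1, one_pos, fun j hj => absurd hj (by omega)⟩
  | succ n ih =>
    obtain ⟨κ1, k1, H1⟩ := ih fun j hj => h j (by omega)
    obtain ⟨κ2, k2, H2⟩ := h n (by omega)
    refine ⟨min κ1 κ2, lt_min k1 k2, fun j hj => ?_⟩
    rcases Nat.lt_succ_iff_lt_or_eq.1 hj with h1 | rfl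
    · exact hm _ _ _ (lt_min k1 k2) (min_le_left _ _) (H1 j h1)
    · exact hm _ _ _ (lt_min k1 k2) (min_le_right _ _) H2

end Pool.Agent.U220.RA
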