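import Pool.Agent.TH563.CU.TetS

/-!
# The volume of ideal tetrahedra: quadratic bounds for the gap in the tangent inequality
-/

set_option autoImplicit false

namespace Pool.Agent.U220.RA

open Real Set Filter MeasureTheory Pool.Agent.W709.VC Pool.Agent.W120.VC
open Pool.Agent.W719.AR (Fl)
open scoped Topology

lemma sin_ge {μ X : ℝ} (h0 : 0 ≤ μ) (h1 : μ ≤ X) (h2 : X ≤ π - μ) : sin μ ≤ sin X := by
  rcases le_total X (π / 2) with h | h
  · exact sin_le_sin_of_le_of_le_pi_div_two (by linarith [Real.pi_pos]) h h1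
  · rw [← sin_pi_sub X]
    exact sin_le_sin_of_le_of_le_pi_div_two (by linarith [Real.pi_pos]) (by linarith) (by linarith)

lemma form_ge {a b X Y Z σ : ℝ} (hsum : X + Y + Z = π) (h0 : 0 ≤ σ) (hX : σ ≤ sin X)
    (hY : σ ≤ sin Y) (hZ : σ ≤ sin Z) :
    σ ^ 4 / 2 * (a ^ 2 + b ^ 2) ≤ a ^ 2 * (cos X * sin Y * sin Z) +
      b ^ 2 * (cos Y * sin X * sin Z) + (a + b) ^ 2 * (cos Z * sin X * sin Y) := by
  have hZ' : Z = π - (X + Y) := by linarith
  have e : a ^ 2 * (cos X * sin Y * sin Z) + b ^ 2 * (cos Y * sin X * sin Z)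
      + (a + b) ^ 2 * (cos Z * sin X * sin Y)
      = (a * sin Y + cos Z * (b * sin X)) ^ 2 + (1 - cos Z ^ 2) * (b * sin X) ^ 2 := by
    have hX := sin_sq_add_cos_sq X
    have hY := sin_sq_add_cos_sq Y
    rw [hZ', sin_pi_sub, cos_pi_sub, sin_add, cos_add]
    linear_combination (a ^ 2 * sin Y ^ 2) * hX + (b ^ 2 * sin X ^ 2) * hY
  rw [e]
  have hσ1 : σ ≤ 1 := hX.trans (sin_le_one X)
  have hC : cos Z ^ 2 ≤ (1 - σ ^ 2 / 2) ^ 2 := by
    have h1 := sin_sq_add_cos_sq Z
    have h2 : σ ^ 2 ≤ sin Z ^ 2 := pow_le_pow_left₀ h0 hZ 2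
    nlinarith [sq_nonneg (σ ^ 2)]
  have hq : 0 ≤ 1 - σ ^ 2 / 2 := by nlinarith
  have hC' : |cos Z| ≤ 1 - σ ^ 2 / 2 := abs_le_of_sq_le_sq hC hq
  obtain ⟨hC1, hC2⟩ := abs_le.1 hC'
  generalize cos Z = C at *
  have hA : σ ^ 2 * a ^ 2 ≤ (a * sin Y) ^ 2 := by
    have h2 : σ ^ 2 ≤ sin Y ^ 2 := pow_le_pow_left₀ h0 hY 2
    nlinarith [sq_nonneg a]
  have hB : σ ^ 2 * b ^ 2 ≤ (b * sin X) ^ 2 := by
    have h2 : σ ^ 2 ≤ sin X ^ 2 := pow_le_pow_left₀ h0 hX 2
    nlinarith [sq_nonneg b]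
  generalize a * sin Y = A at *
  generalize b * sin X = B at *
  have h3 : σ ^ 2 / 2 * (A ^ 2 + B ^ 2) ≤ (A + C * B) ^ 2 + (1 - C ^ 2) * B ^ 2 := by
    have h4 : 0 ≤ (1 - σ ^ 2 / 2 - C) * (A - B) ^ 2 :=
      mul_nonneg (by linarith) (sq_nonneg _)
    have h5 : 0 ≤ (1 - σ ^ 2 / 2 + C) * (A + B) ^ 2 :=
      mul_nonneg (by linarith) (sq_nonneg _)
    nlinarith
  have h6 : 0 ≤ σ ^ 2 / 2 := by positivity
  nlinarith [mul_le_mul_of_nonneg_left (add_le_add hA hB) h6]

/-- the supporting hyperplane inequality, with a quadratic term -/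
theorem tet_quant {x y z : ℝ} (hx : 0 < x) (hy : 0 < y) (hz : 0 < z) (hsum : x + y + z = π) :
    ∃ κ : ℝ, 0 < κ ∧ ∀ x' y' z' : ℝ, 0 ≤ x' → 0 ≤ y' → 0 ≤ z' → x' + y' + z' = π →
      GapVol.lob x' + GapVol.lob y' + GapVol.lob z' ≤
        GapVol.lob x + GapVol.lob y + GapVol.lob z -
        (x' - x) * Real.log (2 * Real.sin x) - (y' - y) * Real.log (2 * Real.sin y) -
        (z' - z) * Real.log (2 * Real.sin z) -
        κ * ((x' - x) ^ 2 + (y' - y) ^ 2 + (z' - z) ^ 2) := by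
  obtain ⟨μ, hμ⟩ : ∃ μ : ℝ, μ = min x (min y z) / 2 := ⟨_, rfl⟩
  have hμ0 : 0 < μ := by
    rw [hμ]
    have : 0 < min x (min y z) := lt_min hx (lt_min hy hz)
    linarith
  have hμx : 2 * μ ≤ x := by
    rw [hμ]
    linarith [min_le_left x (min y z)]
  have hμy : 2 * μ ≤ y := by
    rw [hμ]
    linarith [(min_le_right x (min y z)).trans (min_le_left y z)]
  have hμz : 2 * μ ≤ z := by
    rw [hμ]
    linarith [(min_le_right x (min y z)).trans (min_le_right y z)]
  have hσ : 0 < sin μ := sin_pos_of_pos_of_lt_pi hμ0 (by linarith)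
  obtain ⟨σ, hσ'⟩ : ∃ σ : ℝ, σ = sin μ := ⟨_, rfl⟩
  rw [← hσ'] at hσ
  refine ⟨σ ^ 4 / 48, by positivity, fun x' y' z' hx' hy' hz' hsum' => ?_⟩
  set a := x' - x with ha
  set b := y' - y with hb
  set c := z' - z with hc
  have habc : a + b + c = 0 := by rw [ha, hb, hc]; linarith
  have hpos : ∀ t ∈ Ico (0:ℝ) 1, (0 < x + t * a ∧ 0 < y + t * b ∧ 0 < z + t * c) ∧
      (x + t * a < π ∧ y + t * b < π ∧ z + t * c < π) ∧
      (x + t * a) + (y + t * b) + (z + t * c) = π := by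
    intro t ht
    have h1 : 0 < x + t * a := by
      have : x + t * a = (1 - t) * x + t * x' := by rw [ha]; ring
      rw [this]
      have := mul_pos (sub_pos.2 ht.2) hx
      have := mul_nonneg ht.1 hx'
      linarith
    have h2 : 0 < y + t * b := by
      have : y + t * b = (1 - t) * y + t * y' := by rw [hb]; ring
      rw [this]
      have := mul_pos (sub_pos.2 ht.2) hy
      have := mul_nonneg ht.1 hy'
      linarith
    have h3 : 0 < z + t * c := by
      have : z + t * c = (1 - t) * z + t * z' := by rw [hc]; ring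
      rw [this]
      have := mul_pos (sub_pos.2 ht.2) hz
      have := mul_nonneg ht.1 hz'
      linarith
    have h4 : (x + t * a) + (y + t * b) + (z + t * c) = π := by
      have : (x + t * a) + (y + t * b) + (z + t * c) = (x + y + z) + t * (a + b + c) := by ring
      rw [this, habc, hsum]; ring
    exact ⟨⟨h1, h2, h3⟩, ⟨by linarith, by linarith, by linarith⟩, h4⟩
  have hhalf : ∀ t ∈ Icc (0:ℝ) (1 / 2), σ ≤ sin (x + t * a) ∧ σ ≤ sin (y + t * b) ∧
      σ ≤ sin (z + t * c) := by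
    intro t ht
    obtain ⟨-, -, h4⟩ := hpos t ⟨ht.1, by linarith [ht.2]⟩
    have h1 : μ ≤ x + t * a := by
      have : x + t * a = (1 - t) * x + t * x' := by rw [ha]; ring
      rw [this]
      have := mul_nonneg ht.1 hx'
      nlinarith [ht.1, ht.2]
    have h2 : μ ≤ y + t * b := by
      have : y + t * b = (1 - t) * y + t * y' := by rw [hb]; ring
      rw [this]
      have := mul_nonneg ht.1 hy'
      nlinarith [ht.1, ht.2]
    have h3 : μ ≤ z + t * c := by
      have : z + t * c = (1 - t) * z + t * z' := by rw [hc]; ring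
      rw [this]
      have := mul_nonneg ht.1 hz'
      nlinarith [ht.1, ht.2]
    rw [hσ']
    exact ⟨sin_ge hμ0.le h1 (by linarith), sin_ge hμ0.le h2 (by linarith),
      sin_ge hμ0.le h3 (by linarith)⟩
  set h : ℝ → ℝ := fun t => a * Real.log (2 * sin (x + t * a)) + b * Real.log (2 * sin (y + t * b))
    + c * Real.log (2 * sin (z + t * c)) with hh
  have hderiv : ∀ t ∈ Ico (0:ℝ) 1, HasDerivAt h
      (a ^ 2 * (cos (x + t * a) / sin (x + t * a)) + b ^ 2 * (cos (y + t * b) / sin (y + t * b))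
        + c ^ 2 * (cos (z + t * c) / sin (z + t * c))) t := by
    intro t ht
    obtain ⟨⟨p1, p2, p3⟩, ⟨q1, q2, q3⟩, hs⟩ := hpos t ht
    exact ((log_sin_deriv p1 q1).add (log_sin_deriv p2 q2)).add (log_sin_deriv p3 q3)
  have hform : ∀ t ∈ Ico (0:ℝ) 1, a ^ 2 * (cos (x + t * a) / sin (x + t * a))
          + b ^ 2 * (cos (y + t * b) / sin (y + t * b))
          + c ^ 2 * (cos (z + t * c) / sin (z + t * c))
          = (a ^ 2 * (cos (x + t * a) * sin (y + t * b) * sin (z + t * c))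
            + b ^ 2 * (cos (y + t * b) * sin (x + t * a) * sin (z + t * c))
            + (a + b) ^ 2 * (cos (z + t * c) * sin (x + t * a) * sin (y + t * b)))
            / (sin (x + t * a) * sin (y + t * b) * sin (z + t * c)) := by
    intro t ht
    obtain ⟨⟨p1, p2, p3⟩, ⟨q1, q2, q3⟩, hs⟩ := hpos t ht
    have s1 := Real.sin_pos_of_pos_of_lt_pi p1 q1
    have s2 := Real.sin_pos_of_pos_of_lt_pi p2 q2
    have s3 := Real.sin_pos_of_pos_of_lt_pi p3 q3
    have hc2 : c ^ 2 = (a + b) ^ 2 := by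
      have : c = -(a + b) := by linarith
      rw [this]; ring
    rw [hc2]
    clear hs
    generalize sin (x + t * a) = S1 at *
    generalize sin (y + t * b) = S2 at *
    generalize sin (z + t * c) = S3 at *
    generalize cos (x + t * a) = C1 at *
    generalize cos (y + t * b) = C2 at *
    generalize cos (z + t * c) = C3 at *
    field_simp
  have hmono : MonotoneOn h (Ico 0 1) := by
    apply monotoneOn_of_deriv_nonneg (convex_Ico 0 1)
    · exact fun t ht => (hderiv t ht).continuousAt.continuousWithinAt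
    · intro t ht
      rw [interior_Ico] at ht
      exact (hderiv t ⟨ht.1.le, ht.2⟩).differentiableAt.differentiableWithinAt
    · intro t ht
      rw [interior_Ico] at ht
      have ht' : t ∈ Ico (0:ℝ) 1 := ⟨ht.1.le, ht.2⟩
      rw [(hderiv t ht').deriv, hform t ht']
      obtain ⟨⟨p1, p2, p3⟩, ⟨q1, q2, q3⟩, hs⟩ := hpos t ht'
      have s1 := Real.sin_pos_of_pos_of_lt_pi p1 q1
      have s2 := Real.sin_pos_of_pos_of_lt_pi p2 q2
      have s3 := Real.sin_pos_of_pos_of_lt_pi p3 q3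
      exact div_nonneg (form_nonneg a b _ _ _ hs) (by positivity)
  obtain ⟨k, hk⟩ : ∃ k : ℝ, k = σ ^ 4 / 2 * (a ^ 2 + b ^ 2) := ⟨_, rfl⟩
  have hk0 : 0 ≤ k := by
    rw [hk]
    positivity
  have hmono2 : MonotoneOn (fun t => h t - k * t) (Icc 0 (1 / 2)) := by
    have hd : ∀ t ∈ Icc (0:ℝ) (1 / 2), HasDerivAt (fun t => h t - k * t)
        (a ^ 2 * (cos (x + t * a) / sin (x + t * a)) + b ^ 2 * (cos (y + t * b) / sin (y + t * b))
        + c ^ 2 * (cos (z + t * c) / sin (z + t * c)) - k) t := by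
      intro t ht
      have h1 : HasDerivAt (fun t : ℝ => k * t) k t := by
        simpa using (hasDerivAt_id t).const_mul k
      exact (hderiv t ⟨ht.1, by linarith [ht.2]⟩).sub h1
    apply monotoneOn_of_deriv_nonneg (convex_Icc _ _)
    · exact fun t ht => (hd t ht).continuousAt.continuousWithinAt
    · intro t ht
      rw [interior_Icc] at ht
      exact (hd t ⟨ht.1.le, ht.2.le⟩).differentiableAt.differentiableWithinAt
    · intro t ht
      rw [interior_Icc] at ht
      have ht' : t ∈ Ico (0:ℝ) 1 := ⟨ht.1.le, by linarith [ht.2]⟩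
      rw [(hd t ⟨ht.1.le, ht.2.le⟩).deriv, hform t ht']
      obtain ⟨⟨p1, p2, p3⟩, ⟨q1, q2, q3⟩, hs⟩ := hpos t ht'
      obtain ⟨r1, r2, r3⟩ := hhalf t ⟨ht.1.le, ht.2.le⟩
      have hf := form_ge (a := a) (b := b) hs hσ.le r1 r2 r3
      rw [← hk] at hf
      have s1 := hσ.trans_le r1
      have s2 := hσ.trans_le r2
      have s3 := hσ.trans_le r3
      have h12 : sin (x + t * a) * sin (y + t * b) * sin (z + t * c) ≤ 1 := by
        have := sin_le_one (x + t * a)
        have := sin_le_one (y + t * b)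
        have := sin_le_one (z + t * c)
        calc sin (x + t * a) * sin (y + t * b) * sin (z + t * c) ≤ 1 * 1 * 1 := by gcongr
          _ = 1 := by norm_num
      rw [sub_nonneg, le_div_iff₀ (by positivity)]
      calc k * (sin (x + t * a) * sin (y + t * b) * sin (z + t * c)) ≤ k * 1 := by gcongr
        _ = k := mul_one k
        _ ≤ _ := hf
  have hlow : ∀ t ∈ Icc (0:ℝ) (1 / 2), h 0 + k * t ≤ h t := by
    intro t ht
    have := hmono2 (left_mem_Icc.2 (by norm_num)) ht ht.1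
    simp only [mul_zero, sub_zero] at this
    linarith
  set f : ℝ → ℝ := fun t => GapVol.lob (x + t * a) + GapVol.lob (y + t * b)
    + GapVol.lob (z + t * c) + t * h 0 with hf
  have hlin : ∀ (x a t : ℝ), HasDerivAt (fun t : ℝ => x + t * a) a t := fun x a t => by
    simpa using ((hasDerivAt_id t).mul_const a).const_add x
  have hfderiv : ∀ t ∈ Ico (0:ℝ) 1, HasDerivAt f (-h t + h 0) t := by
    intro t ht
    obtain ⟨⟨p1, p2, p3⟩, ⟨q1, q2, q3⟩, hs⟩ := hpos t ht
    have d1 := (lob_deriv p1 q1).comp t (hlin x a t)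
    have d2 := (lob_deriv p2 q2).comp t (hlin y b t)
    have d3 := (lob_deriv p3 q3).comp t (hlin z c t)
    have d4 : HasDerivAt (fun t : ℝ => t * h 0) (h 0) t := by
      simpa using (hasDerivAt_id t).mul_const (h 0)
    have d5 := ((d1.add d2).add d3).add d4
    refine d5.congr_deriv ?_
    simp only [hh]
    ring
  have hcont : Continuous f := by
    have := GapVol.lob_cont
    simp only [hf]
    fun_prop
  have hanti : AntitoneOn f (Icc 0 1) := by
    apply antitoneOn_of_deriv_nonpos (convex_Icc 0 1) hcont.continuousOn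
    · intro t ht
      rw [interior_Icc] at ht
      exact (hfderiv t ⟨ht.1.le, ht.2⟩).differentiableAt.differentiableWithinAt
    · intro t ht
      rw [interior_Icc] at ht
      rw [(hfderiv t ⟨ht.1.le, ht.2⟩).deriv]
      have := hmono (left_mem_Ico.2 one_pos) ⟨ht.1.le, ht.2⟩ ht.1.le
      linarith
  have hanti2 : AntitoneOn (fun t => f t + k * (t ^ 2 / 2)) (Icc 0 (1 / 2)) := by
    have hd : ∀ t ∈ Ico (0:ℝ) 1, HasDerivAt (fun t => f t + k * (t ^ 2 / 2))
        (-h t + h 0 + k * t) t := by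
      intro t ht
      have h1 : HasDerivAt (fun t : ℝ => k * (t ^ 2 / 2)) (k * t) t := by
        have h2 : HasDerivAt (fun t : ℝ => t ^ 2) (2 * t) t := by simpa using hasDerivAt_pow 2 t
        refine ((h2.div_const 2).const_mul k).congr_deriv ?_
        ring
      exact (hfderiv t ht).add h1
    apply antitoneOn_of_deriv_nonpos (convex_Icc _ _)
    · exact (hcont.add (by fun_prop)).continuousOn
    · intro t ht
      rw [interior_Icc] at ht
      exact (hd t ⟨ht.1.le, by linarith [ht.2]⟩).differentiableAt.differentiableWithinAt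
    · intro t ht
      rw [interior_Icc] at ht
      rw [(hd t ⟨ht.1.le, by linarith [ht.2]⟩).deriv]
      have := hlow t ⟨ht.1.le, ht.2.le⟩
      linarith
  have g1 := hanti2 (left_mem_Icc.2 (by norm_num)) (right_mem_Icc.2 (by norm_num))
    (by norm_num : (0:ℝ) ≤ 1 / 2)
  have g2 := hanti (⟨by norm_num, by norm_num⟩ : (1 / 2 : ℝ) ∈ Icc (0:ℝ) 1)
    (right_mem_Icc.2 zero_le_one) (by norm_num : (1 / 2 : ℝ) ≤ 1)
  have g3 : f 1 ≤ f 0 - k / 8 := by
    have g1' : f (1 / 2) + k * ((1 / 2) ^ 2 / 2) ≤ f 0 + k * (0 ^ 2 / 2) := g1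
    clear_value f h
    clear g1 hanti2 hanti hcont hfderiv hlin hlow hmono2 hmono hderiv hform hhalf hpos
    have g4 : k * ((1 / 2) ^ 2 / 2) = k / 8 := by ring
    have g5 : k * ((0:ℝ) ^ 2 / 2) = 0 := by ring
    rw [g4, g5] at g1'
    linarith
  simp only [hf, hh, zero_mul, add_zero, one_mul] at g3
  have e1 : x + a = x' := by rw [ha]; ring
  have e2 : y + b = y' := by rw [hb]; ring
  have e3 : z + c = z' := by rw [hc]; ring
  rw [e1, e2, e3] at g3
  have hc2 : c ^ 2 ≤ 2 * (a ^ 2 + b ^ 2) := by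
    have e7 : c = -(a + b) := by linarith
    have e8 : c ^ 2 = 2 * (a ^ 2 + b ^ 2) - (a - b) ^ 2 := by
      rw [e7]
      ring
    rw [e8]
    exact sub_le_self _ (sq_nonneg _)
  have h9 : σ ^ 4 / 48 * (a ^ 2 + b ^ 2 + c ^ 2) ≤ k / 8 := by
    rw [hk]
    have h10 : 0 ≤ σ ^ 4 := by positivity
    have h11 := mul_le_mul_of_nonneg_left hc2 h10
    have e4 : σ ^ 4 / 48 * (a ^ 2 + b ^ 2 + c ^ 2) =
      (σ ^ 4 * a ^ 2 + σ ^ 4 * b ^ 2 + σ ^ 4 * c ^ 2) / 48 := by ring
    have e5 : σ ^ 4 / 2 * (a ^ 2 + b ^ 2) / 8 = (σ ^ 4 * a ^ 2 + σ ^ 4 * b ^ 2) / 16 := by ring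
    have e6 : σ ^ 4 * (2 * (a ^ 2 + b ^ 2)) = 2 * (σ ^ 4 * a ^ 2) + 2 * (σ ^ 4 * b ^ 2) := by ring
    rw [e4, e5]
    rw [e6] at h11
    linarith
  linarith

end Pool.Agent.U220.RA
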