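import Pool.Agent.N566.RX.FinS

/-!
# Rings of trees with their axes: coverings and fillings

`Wit n sh V`: there is a solution of the equations of the critical points at `χ = 0` for the ring of
the trees `sh 0, …, sh (n - 1)`, and `V` is its volume.  Then `V` is the maximum of the volume among
all structures that satisfy the conditions at the vertices (`Loc`), whether or not the axis is
filled; the structures of volume `V` have trivial rotation along the axis; and `r V` belongs in the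
same way to the ring which is repeated `r` times (the cyclic covering of degree `r`).
-/

set_option autoImplicit false

namespace Pool.Agent.U220.RA

open Finset Filter Topology
open Complex (exp log cos sin I)
open Pool.Agent.TH563.UV (Tb PB AB)
open Pool.Agent.W711.HT hiding XX
open Pool.Agent.W719.AR (Fl)
open Pool.Agent.Y481.DR (VD DAng dVol)
open Pool.Agent.Y481.DX (DAngA CritV)
open Pool.Agent.Y482.Chi (rlam rho)
open Pool.Agent.Y482.Cv (cf cg cF cG lin)
open Pool.Agent.Y482.Cz (BG)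
open Pool.Agent.Y482.DX (PC PAx)
open Pool.Agent.N561 (CG gg vg)
open Pool.Agent.N561.G
open Pool.Agent.N566.PS
open scoped Real

/-- structures that satisfy all conditions but those on the rotation along the axis -/
structure Loc (n : ℕ) (sh : ℕ → Tb) (y : ℕ → AB) (f g F G : ℕ → Fl) : Prop where
  shape : ∀ j < n, (y j).shape = sh j
  pos : ∀ j < n, (f j).Pos ∧ (g j).Pos ∧ (F j).Pos ∧ (G j).Pos
  diag : ∀ j < n, (f j).b + (f j).c' + ((g j).b + (g j).c') = 2 * π ∧
    (F j).b + (F j).c' + ((G j).b + (G j).c') = 2 * π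
  tree : ∀ j < n, (y j).OK
  vert : ∀ j < n, VD (y ((j + 1) % n)).wt (y ((j + 1) % n)).fl (f j) (g j) (F j) (G j)
    (f ((j + 1) % n)) (g ((j + 1) % n)) (F ((j + 1) % n)) (G ((j + 1) % n))

section
variable {n : ℕ} {sh : ℕ → Tb} {y : ℕ → AB} {f g F G : ℕ → Fl} {m : ℤ}

theorem loc_of_ax (h : PAx n sh y f g F G) : Loc n sh y f g F G :=
  ⟨h.1, h.2.pos, h.2.diag, h.2.tree, h.2.vert⟩

theorem loc_of_cl (h : PC n m sh y f g F G) : Loc n sh y f g F G :=
  ⟨h.1, h.2.pos, h.2.diag, h.2.tree, h.2.vert⟩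

end

/-- a solution of the equations of the critical points at `χ = 0`, of volume `V` -/
def Wit (n : ℕ) (sh : ℕ → Tb) (V : ℝ) : Prop :=
  ∃ (kf : Bool → ℕ → ℤ → ℕ) (e : ℕ → ℕ → ℂ → ℂ → ℂ) (p : ℕ → PB) (u : ℕ → ℂ),
    (∀ j < n, (p j).shape = sh j) ∧
    (∀ j < n, hpv kf e 0 (p j) ∧ lcv kf e 0 (p j)) ∧
    CritV n (fun j => (p j).wt) (fun j => lgv kf e 0 (p j)) (fun j => (p j).rz) 0 u ∧
    dVol n (fun j => agv kf e 0 (p j)) (cf (fun j => (p j).rz) 0 u)
      (cg n (fun j => (p j).rz) 0 u) (cF (fun j => (p j).rz) 0 u)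
      (cG n (fun j => (p j).rz) 0 u) = V

/-- the maximum of the volume, and the case of equality -/
theorem Wit.max {n : ℕ} {sh : ℕ → Tb} {V : ℝ} (hn : 1 ≤ n) (h : Wit n sh V) :
    IsGreatest {W : ℝ | ∃ (y : ℕ → AB) (f g F G : ℕ → Fl), PAx n sh y f g F G ∧
      dVol n y f g F G = W} V ∧
    ∀ (y : ℕ → AB) (f g F G : ℕ → Fl), Loc n sh y f g F G →
      dVol n y f g F G ≤ V ∧ (dVol n y f g F G = V →
        rlam (f 0) (g 0) (F 0) (G 0) = 0 ∧
          ∑ j ∈ range n, rho (f j) (g j) (F j) (G j) = 0) := by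
  obtain ⟨kf, e, p, u, hs, hp, hX, hV⟩ := h
  have hA := crit_angAV hn hp hX
  have key : ∀ (y : ℕ → AB) (f g F G : ℕ → Fl), Loc n sh y f g F G →
      dVol n y f g F G ≤ V ∧ (dVol n y f g F G = V →
        rlam (f 0) (g 0) (F 0) (G 0) = 0 ∧
          ∑ j ∈ range n, rho (f j) (g j) (F j) (G j) = 0) := by
    intro y f g F G hL
    have h1 := dmaxuV hp hX.bz (fun j hj => by rw [hL.shape j hj, hs j hj]) hL.tree hL.pos hL.diag
      (by
        rw [linD_sumV hn hp hX (fun j hj => by rw [hL.shape j hj, hs j hj]) hL.tree hL.vert]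
        refine sum_eq_zero fun j hj => ?_
        unfold Pool.Agent.Y482.Chi.TX
        rw [zero_div, Pool.Agent.Y482.Cv.lcr0]
        simp)
    rw [hV] at h1
    refine ⟨h1.1, fun h2 => ?_⟩
    have h3 := h1.2 (by rw [h2])
    constructor
    · obtain ⟨-, a1, a2, a3, a4⟩ := h3 0 (by omega)
      rw [a1, a2, a3, a4]
      exact hA.long
    · rw [← hA.mer]
      refine sum_congr rfl fun j hj => ?_
      obtain ⟨-, a1, a2, a3, a4⟩ := h3 j (mem_range.1 hj)
      rw [a1, a2, a3, a4]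
  refine ⟨⟨⟨_, _, _, _, _, ⟨fun j hj => ?_, hA⟩, hV⟩, ?_⟩, key⟩
  · rw [agv_shape, hs j hj]
  · rintro W ⟨y, f, g, F, G, h1, rfl⟩
    exact (key y f g F G (loc_of_ax h1)).1

/-- the filled rings have smaller volume -/
theorem Wit.fill {n : ℕ} {sh : ℕ → Tb} {V V' : ℝ} {m : ℤ} (hn : 1 ≤ n) (h : Wit n sh V)
    (h' : IsGreatest {W : ℝ | ∃ (y : ℕ → AB) (f g F G : ℕ → Fl), PC n m sh y f g F G ∧
      dVol n y f g F G = W} V') : V' < V := by
  obtain ⟨⟨y, f, g, F, G, h1, h2⟩, -⟩ := h'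
  obtain ⟨h3, h4⟩ := (h.max hn).2 y f g F G (loc_of_cl h1)
  rw [h2] at h3 h4
  refine lt_of_le_of_ne h3 fun h5 => ?_
  obtain ⟨h6, h7⟩ := h4 h5
  have h8 := h1.2.fill
  rw [h6, h7] at h8
  have := Real.pi_pos
  simp at h8

theorem sum_rep {n r : ℕ} (hn : 1 ≤ n) (a : ℕ → ℝ) :
    ∑ j ∈ range (r * n), a (j % n) = r * ∑ j ∈ range n, a j := by
  induction r with
  | zero => simp
  | succ r ih =>
    rw [show (r + 1) * n = r * n + n by ring, Finset.sum_range_add, ih]
    have : ∑ x ∈ range n, a ((r * n + x) % n) = ∑ j ∈ range n, a j := by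
      refine sum_congr rfl fun x hx => ?_
      rw [mem_range] at hx
      rw [Nat.add_comm, Nat.add_mul_mod_self_right, Nat.mod_eq_of_lt hx]
    rw [this]
    push_cast
    ring

theorem succ_mod {n r j : ℕ} : ((j + 1) % (r * n)) % n = (j % n + 1) % n := by
  rw [Nat.mod_mod_of_dvd _ (Dvd.intro_left r rfl), Nat.mod_add_mod]

/-- coverings -/
theorem Wit.rep {n : ℕ} {sh : ℕ → Tb} {V : ℝ} (hn : 1 ≤ n) (h : Wit n sh V) {r : ℕ} (hr : 1 ≤ r) :
    Wit (r * n) (fun j => sh (j % n)) (r * V) := by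
  obtain ⟨kf, e, p, u, hs, hp, hX, hV⟩ := h
  have hlt : ∀ j, j % n < n := fun j => Nat.mod_lt _ (by omega)
  refine ⟨kf, e, fun j => p (j % n), fun j => u (j % n), fun j _ => hs _ (hlt j),
    fun j _ => hp _ (hlt j), ⟨fun j _ => ?_, fun j _ => ?_⟩, ?_⟩
  · have := hX.bz (j % n) (hlt j)
    simp only [succ_mod]
    exact this
  · have := hX.vert (j % n) (hlt j)
    simp only [succ_mod]
    exact this
  · rw [← hV]
    unfold dVol
    rw [← sum_rep hn]
    refine sum_congr rfl fun j _ => ?_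
    simp only [cf, cg, cF, cG, succ_mod]

end Pool.Agent.U220.RA
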